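import Pool.Agent.Helper20.APD.Abs

set_option autoImplicit false

/-!
# Pushdown machines with few calls and their simulation with a table of the results of the calls

Abstract part: the evaluation relation of surface configurations, the simulation with a table, its
correctness, the number of its steps and the number of changes of the table.
-/

namespace Pool.Agent.Helper20.APC

open Pool.Agent.Helper20.APD (Mv PD)

variable {Q Z : Type}

/-- Evaluation of a surface configuration (state and top of the stack): after `m` steps the machine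
accepts (result `none`) or the top of the stack is removed for the first time, in the state `v`
(result `some v`). All surface configurations on the way are in `V`, and those after a push are in
`C`. -/
inductive Ev (P : PD Q Z) (V C : Set (Q × Z)) : Q × Z → ℕ → Option Q → Prop
  | acc (q : Q) (z : Z) : P.acc q → Ev P V C (q, z) 0 none
  | popAcc (q : Q) (z : Z) (v : Q) : ¬ P.acc q → (q, z) ∈ V → P.mv q z = .pop v → P.acc v →
      Ev P V C (q, z) 1 none
  | pop (q : Q) (z : Z) (v : Q) : ¬ P.acc q → (q, z) ∈ V → P.mv q z = .pop v → ¬ P.acc v →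
      Ev P V C (q, z) 1 (some v)
  | stay (q : Q) (z : Z) (q' : Q) (z' : Z) (m : ℕ) (o : Option Q) : ¬ P.acc q → (q, z) ∈ V →
      P.mv q z = .stay q' z' → Ev P V C (q', z') m o → Ev P V C (q, z) (m + 1) o
  | pushAcc (q : Q) (z : Z) (q' : Q) (z' : Z) (m : ℕ) : ¬ P.acc q → (q, z) ∈ V →
      P.mv q z = .push q' z' → (q', z') ∈ C → Ev P V C (q', z') m none →
      Ev P V C (q, z) (m + 1) none
  | push (q : Q) (z : Z) (q' : Q) (z' : Z) (m : ℕ) (v : Q) (m' : ℕ) (o : Option Q) : ¬ P.acc q →
      (q, z) ∈ V → P.mv q z = .push q' z' → (q', z') ∈ C → Ev P V C (q', z') m (some v) →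
      Ev P V C (v, z) m' o → Ev P V C (q, z) (m + m' + 1) o

theorem Ev.mono {P : PD Q Z} {V V' C C' : Set (Q × Z)} (h : V ⊆ V') (hC : C ⊆ C') {c : Q × Z}
    {m : ℕ} {o : Option Q} (he : Ev P V C c m o) : Ev P V' C' c m o := by
  induction he with
  | acc q z hq => exact .acc q z hq
  | popAcc q z v h1 h2 h3 h4 => exact .popAcc q z v h1 (h h2) h3 h4
  | pop q z v h1 h2 h3 h4 => exact .pop q z v h1 (h h2) h3 h4
  | stay q z q' z' m o h1 h2 h3 _ ih => exact .stay q z q' z' m o h1 (h h2) h3 ih
  | pushAcc q z q' z' m h1 h2 h3 h4 _ ih => exact .pushAcc q z q' z' m h1 (h h2) h3 (hC h4) ih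
  | push q z q' z' m v m' o h1 h2 h3 h4 _ _ ih1 ih2 =>
    exact .push q z q' z' m v m' o h1 (h h2) h3 (hC h4) ih1 ih2

/-- The evaluation without the sets. -/
abbrev EvU (P : PD Q Z) : Q × Z → ℕ → Option Q → Prop := Ev P Set.univ Set.univ

theorem Ev.toU {P : PD Q Z} {V C : Set (Q × Z)} {c : Q × Z} {m : ℕ} {o : Option Q}
    (he : Ev P V C c m o) : EvU P c m o := he.mono (Set.subset_univ _) (Set.subset_univ _)

/-- The evaluation is deterministic. -/
theorem Ev.det {P : PD Q Z} {V V' C C' : Set (Q × Z)} {c : Q × Z} {m : ℕ} {o : Option Q}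
    (h1 : Ev P V C c m o) : ∀ {m' : ℕ} {o' : Option Q}, Ev P V' C' c m' o' → m = m' ∧ o = o' := by
  induction h1 with
  | acc q z hq =>
    intro m' o' h2
    cases h2 with
    | acc => exact ⟨rfl, rfl⟩
    | popAcc _ _ _ h => exact absurd hq h
    | pop _ _ _ h => exact absurd hq h
    | stay _ _ _ _ _ _ h => exact absurd hq h
    | pushAcc _ _ _ _ _ h => exact absurd hq h
    | push _ _ _ _ _ _ _ _ h => exact absurd hq h
  | popAcc q z v a1 a2 a3 a4 =>
    intro m' o' h2
    cases h2 with
    | acc _ _ h => exact absurd h a1
    | popAcc _ _ v' _ _ h3 => exact ⟨rfl, rfl⟩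
    | pop _ _ v' _ _ h3 h4 =>
      rw [a3] at h3
      cases h3
      exact absurd a4 h4
    | stay _ _ _ _ _ _ _ _ h3 => rw [a3] at h3; cases h3
    | pushAcc _ _ _ _ _ _ _ h3 => rw [a3] at h3; cases h3
    | push _ _ _ _ _ _ _ _ _ _ h3 => rw [a3] at h3; cases h3
  | pop q z v a1 a2 a3 a4 =>
    intro m' o' h2
    cases h2 with
    | acc _ _ h => exact absurd h a1
    | popAcc _ _ v' _ _ h3 h4 =>
      rw [a3] at h3
      cases h3
      exact absurd h4 a4
    | pop _ _ v' _ _ h3 h4 =>
      rw [a3] at h3
      cases h3
      exact ⟨rfl, rfl⟩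
    | stay _ _ _ _ _ _ _ _ h3 => rw [a3] at h3; cases h3
    | pushAcc _ _ _ _ _ _ _ h3 => rw [a3] at h3; cases h3
    | push _ _ _ _ _ _ _ _ _ _ h3 => rw [a3] at h3; cases h3
  | stay q z q' z' m o a1 a2 a3 _ ih =>
    intro m' o' h2
    cases h2 with
    | acc _ _ h => exact absurd h a1
    | popAcc _ _ v' _ _ h3 h4 => rw [a3] at h3; cases h3
    | pop _ _ v' _ _ h3 h4 => rw [a3] at h3; cases h3
    | stay _ _ _ _ _ _ _ _ h3 h4 =>
      rw [a3] at h3
      cases h3
      obtain ⟨e1, e2⟩ := ih h4
      exact ⟨by rw [e1], e2⟩
    | pushAcc _ _ _ _ _ _ _ h3 => rw [a3] at h3; cases h3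
    | push _ _ _ _ _ _ _ _ _ _ h3 => rw [a3] at h3; cases h3
  | pushAcc q z q' z' m a1 a2 a3 _ _ ih =>
    intro m' o' h2
    cases h2 with
    | acc _ _ h => exact absurd h a1
    | popAcc _ _ v' _ _ h3 h4 => rw [a3] at h3; cases h3
    | pop _ _ v' _ _ h3 h4 => rw [a3] at h3; cases h3
    | stay _ _ _ _ _ _ _ _ h3 h4 => rw [a3] at h3; cases h3
    | pushAcc _ _ _ _ _ _ _ h3 _ h4 =>
      rw [a3] at h3
      cases h3
      obtain ⟨e1, e2⟩ := ih h4
      exact ⟨by rw [e1], rfl⟩
    | push _ _ _ _ _ _ _ _ _ _ h3 _ h4 h5 =>
      rw [a3] at h3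
      cases h3
      obtain ⟨e1, e2⟩ := ih h4
      cases e2
  | push q z q' z' m v m1 o a1 a2 a3 _ _ _ ih1 ih2 =>
    intro m' o' h2
    cases h2 with
    | acc _ _ h => exact absurd h a1
    | popAcc _ _ v' _ _ h3 h4 => rw [a3] at h3; cases h3
    | pop _ _ v' _ _ h3 h4 => rw [a3] at h3; cases h3
    | stay _ _ _ _ _ _ _ _ h3 h4 => rw [a3] at h3; cases h3
    | pushAcc _ _ _ _ _ _ _ h3 _ h4 =>
      rw [a3] at h3
      cases h3
      obtain ⟨e1, e2⟩ := ih1 h4
      cases e2
    | push _ _ _ _ _ _ _ _ _ _ h3 _ h4 h5 =>
      rw [a3] at h3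
      cases h3
      obtain ⟨e1, e2⟩ := ih1 h4
      cases e2
      obtain ⟨e3, e4⟩ := ih2 h5
      exact ⟨by rw [e1, e3], e4⟩

/-- A result `some v` of an evaluation describes the run. -/
theorem Ev.run_some {P : PD Q Z} {V C : Set (Q × Z)} {c : Q × Z} {m : ℕ} {o : Option Q}
    (h : Ev P V C c m o) : ∀ v, o = some v → ∀ st, P.run m (c.1, c.2 :: st) = (v, st) := by
  induction h with
  | acc q z hq => intro v hv; cases hv
  | popAcc q z v h1 h2 h3 h4 => intro v hv; cases hv
  | pop q z v h1 h2 h3 h4 =>
    intro v' hv st
    cases hv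
    rw [P.run_one]
    simp only [PD.step, h3]
  | stay q z q' z' m o h1 h2 h3 _ ih =>
    intro v' hv st
    rw [add_comm, P.run_add, P.run_one]
    have e : P.step (q, z :: st) = (q', z' :: st) := by simp only [PD.step, h3]
    rw [e]
    exact ih v' hv st
  | pushAcc q z q' z' m h1 h2 h3 _ _ ih => intro v hv; cases hv
  | push q z q' z' m v m' o h1 h2 h3 _ _ _ ih1 ih2 =>
    intro v' hv st
    rw [add_comm, P.run_add, P.run_one]
    have e : P.step (q, z :: st) = (q', z' :: z :: st) := by simp only [PD.step, h3]
    rw [e, P.run_add, ih1 v rfl (z :: st)]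
    exact ih2 v' hv st

/-- From a run to an evaluation. -/
theorem exists_ev (P : PD Q Z) (V C : Set (Q × Z)) : ∀ (T : ℕ) (q : Q) (z : Z) (st : List Z),
    (∀ t < T, ¬ P.acc (P.run t (q, z :: st)).1) →
    (∀ t < T, ∀ z' st', (P.run t (q, z :: st)).2 = z' :: st' →
      ((P.run t (q, z :: st)).1, z') ∈ V) →
    (∀ t < T, ∀ z' st' q'' z'', (P.run t (q, z :: st)).2 = z' :: st' →
      P.mv (P.run t (q, z :: st)).1 z' = .push q'' z'' → (q'', z'') ∈ C) →
    P.acc (P.run T (q, z :: st)).1 →
    Ev P V C (q, z) T none ∨ ∃ m ≤ T, ∃ v, Ev P V C (q, z) m (some v) ∧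
      P.run m (q, z :: st) = (v, st) ∧ ¬ P.acc v := by
  intro T
  induction T using Nat.strong_induction_on with
  | _ T ih =>
    intro q z st h1 h2 hc h3
    rcases Nat.eq_zero_or_pos T with hT | hT
    · subst hT
      left
      exact .acc q z h3
    obtain ⟨T, rfl⟩ : ∃ T', T = T' + 1 := ⟨T - 1, by omega⟩
    have hq : ¬ P.acc q := h1 0 hT
    have hV : (q, z) ∈ V := h2 0 hT z st rfl
    have hrun : ∀ t, P.run (t + 1) (q, z :: st) = P.run t (P.step (q, z :: st)) := by
      intro t
      rw [add_comm, P.run_add, P.run_one]
    rcases hmv : P.mv q z with _ | v | ⟨q', z'⟩ | ⟨q', z'⟩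
    · -- no move
      exfalso
      have e : P.step (q, z :: st) = (q, z :: st) := by simp only [PD.step, hmv]
      have e2 : ∀ t, P.run t (q, z :: st) = (q, z :: st) := by
        intro t
        induction t with
        | zero => rfl
        | succ t iht => rw [hrun, e, iht]
      rw [e2] at h3
      exact hq h3
    · have e : P.step (q, z :: st) = (v, st) := by simp only [PD.step, hmv]
      by_cases hv : P.acc v
      · left
        have hT0 : T = 0 := by
          by_contra hne
          have := h1 1 (by omega)
          rw [hrun, e] at this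
          exact this hv
        subst hT0
        exact .popAcc q z v hq hV hmv hv
      · right
        refine ⟨1, by omega, v, .pop q z v hq hV hmv hv, ?_, hv⟩
        rw [P.run_one, e]
    · have e : P.step (q, z :: st) = (q', z' :: st) := by simp only [PD.step, hmv]
      have h := ih T (by omega) q' z' st (fun t ht => by
        have := h1 (t + 1) (by omega)
        rwa [hrun, e] at this) (fun t ht a b hab => by
        have := h2 (t + 1) (by omega) a b (by rw [hrun, e]; exact hab)
        rwa [hrun, e] at this) (fun t ht a b q'' z'' hab hm => by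
        refine hc (t + 1) (by omega) a b q'' z'' (by rw [hrun, e]; exact hab) ?_
        rw [hrun, e]
        exact hm) (by rw [hrun, e] at h3; exact h3)
      rcases h with h | ⟨m, hm, v, hev, hr, hv⟩
      · left
        exact .stay q z q' z' T none hq hV hmv h
      · right
        refine ⟨m + 1, by omega, v, .stay q z q' z' m _ hq hV hmv hev, ?_, hv⟩
        rw [hrun, e, hr]
    · have e : P.step (q, z :: st) = (q', z' :: z :: st) := by simp only [PD.step, hmv]
      have hcall : (q', z') ∈ C := hc 0 hT z st q' z' rfl hmv
      have h := ih T (by omega) q' z' (z :: st) (fun t ht => by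
        have := h1 (t + 1) (by omega)
        rwa [hrun, e] at this) (fun t ht a b hab => by
        have := h2 (t + 1) (by omega) a b (by rw [hrun, e]; exact hab)
        rwa [hrun, e] at this) (fun t ht a b q'' z'' hab hm => by
        refine hc (t + 1) (by omega) a b q'' z'' (by rw [hrun, e]; exact hab) ?_
        rw [hrun, e]
        exact hm) (by rw [hrun, e] at h3; exact h3)
      rcases h with h | ⟨m, hm, v, hev, hr, hv⟩
      · left
        exact .pushAcc q z q' z' T hq hV hmv hcall h
      · have hr1 : P.run (m + 1) (q, z :: st) = (v, z :: st) := by rw [hrun, e, hr]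
        have hr2 : ∀ t, P.run (m + 1 + t) (q, z :: st) = P.run t (v, z :: st) := by
          intro t
          rw [P.run_add, hr1]
        have h' := ih (T - m) (by omega) v z st (fun t ht => by
          have := h1 (m + 1 + t) (by omega)
          rwa [hr2] at this) (fun t ht a b hab => by
          have := h2 (m + 1 + t) (by omega) a b (by rw [hr2]; exact hab)
          rwa [hr2] at this) (fun t ht a b q'' z'' hab hm => by
          refine hc (m + 1 + t) (by omega) a b q'' z'' (by rw [hr2]; exact hab) ?_
          rw [hr2]
          exact hm) (by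
          have : m + 1 + (T - m) = T + 1 := by omega
          rw [← hr2, this]
          exact h3)
        rcases h' with h' | ⟨m', hm', v', hev', hr', hv'⟩
        · left
          have h4 := Ev.push q z q' z' m v (T - m) none hq hV hmv hcall hev h'
          have : m + (T - m) + 1 = T + 1 := by omega
          rwa [this] at h4
        · right
          refine ⟨m + m' + 1, by omega, v', .push q z q' z' m v m' _ hq hV hmv hcall hev hev',
            ?_, hv'⟩
          have : m + m' + 1 = m + 1 + m' := by omega
          rw [this, hr2, hr']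

/-! ### The simulation with a table -/

/-- The entries of the table of calls: unknown, in progress (with the symbol below and the caller),
known result. -/
inductive Entry (Q Z : Type)
  | none
  | link (z : Z) (p : Option (Q × Z))
  | done (v : Q)

/-- The states of the simulation: rejection, acceptance, the machine is in the surface
configuration `c` of the call `p`, the call `p` has the result `v`. -/
inductive SS (Q Z : Type)
  | halt
  | acc
  | call (c : Q × Z) (p : Option (Q × Z))
  | ret (p : Option (Q × Z)) (v : Q)

section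

variable [DecidableEq (Q × Z)]

open Classical in
/-- One step of the simulation. -/
noncomputable def sstep (P : PD Q Z) :
    SS Q Z × (Q × Z → Entry Q Z) → SS Q Z × (Q × Z → Entry Q Z)
  | (.halt, M) => (.halt, M)
  | (.acc, M) => (.acc, M)
  | (.call c p, M) =>
    if P.acc c.1 then (.acc, M) else
    match P.mv c.1 c.2 with
    | .fail => (.halt, M)
    | .pop v => if P.acc v then (.acc, M) else (.ret p v, M)
    | .stay q z => (.call (q, z) p, M)
    | .push q z =>
      match M (q, z) with
      | .none => (.call (q, z) (some (q, z)), Function.update M (q, z) (.link c.2 p))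
      | .link _ _ => (.halt, M)
      | .done v => (.call (v, c.2) p, M)
  | (.ret none _, M) => (.halt, M)
  | (.ret (some c) v, M) =>
    match M c with
    | .none => (.halt, M)
    | .link z p => (.call (v, z) p, Function.update M c (.done v))
    | .done _ => (.halt, M)

/-- The state after `k` steps. -/
noncomputable def srun (P : PD Q Z) (k : ℕ) (s : SS Q Z × (Q × Z → Entry Q Z)) :
    SS Q Z × (Q × Z → Entry Q Z) := (sstep P)^[k] s

theorem srun_add (P : PD Q Z) (s t : ℕ) (c : SS Q Z × (Q × Z → Entry Q Z)) :
    srun P (s + t) c = srun P t (srun P s c) := by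
  unfold srun
  rw [add_comm, Function.iterate_add_apply]

theorem srun_one (P : PD Q Z) (c : SS Q Z × (Q × Z → Entry Q Z)) : srun P 1 c = sstep P c := rfl

open Classical in
/-- The number of changes of the table in `k` steps. -/
noncomputable def sct (P : PD Q Z) : ℕ → SS Q Z × (Q × Z → Entry Q Z) → ℕ
  | 0, _ => 0
  | k + 1, s => (if (sstep P s).2 = s.2 then 0 else 1) + sct P k (sstep P s)

theorem sct_add (P : PD Q Z) (a b : ℕ) (s : SS Q Z × (Q × Z → Entry Q Z)) :
    sct P (a + b) s = sct P a s + sct P b (srun P a s) := by
  induction a generalizing s with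
  | zero =>
    rw [zero_add]
    show sct P b s = 0 + sct P b s
    omega
  | succ a ih =>
    have e : a + 1 + b = a + b + 1 := by omega
    have e2 : srun P (a + 1) s = srun P a (sstep P s) := by
      unfold srun
      rw [Function.iterate_succ_apply]
    rw [e, e2]
    show _ + sct P (a + b) (sstep P s) = _ + sct P a (sstep P s) + _
    rw [ih]
    omega

theorem sct_one_le (P : PD Q Z) (s : SS Q Z × (Q × Z → Entry Q Z)) : sct P 1 s ≤ 1 := by
  classical
  show (if (sstep P s).2 = s.2 then 0 else 1) + 0 ≤ 1
  split_ifs <;> omega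

theorem sct_one_zero (P : PD Q Z) (s : SS Q Z × (Q × Z → Entry Q Z)) (h : (sstep P s).2 = s.2) :
    sct P 1 s = 0 := by
  classical
  show (if (sstep P s).2 = s.2 then 0 else 1) + 0 = 0
  rw [if_pos h]

/-! ### Completeness and running time -/

/-- The calls in progress. -/
def Wait (M : Q × Z → Entry Q Z) (x : Q × Z) : Prop := ∃ z p, M x = .link z p

/-- All known results are right. -/
def Inv (P : PD Q Z) (M : Q × Z → Entry Q Z) : Prop :=
  ∀ x v, M x = .done v → ∃ m, EvU P x m (some v)

/-- `M'` arises from `M` by adding results. -/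
def Ext (M M' : Q × Z → Entry Q Z) : Prop :=
  ∀ x, M' x = M x ∨ (M x = .none ∧ ∃ v, M' x = .done v)

omit [DecidableEq (Q × Z)] in
theorem Ext.refl (M : Q × Z → Entry Q Z) : Ext M M := fun _ => Or.inl rfl

omit [DecidableEq (Q × Z)] in
theorem Ext.trans {M M' M'' : Q × Z → Entry Q Z} (h : Ext M M') (h' : Ext M' M'') :
    Ext M M'' := by
  intro x
  rcases h x with h1 | ⟨h1, v, h2⟩
  · rcases h' x with h3 | ⟨h3, h4⟩
    · left; rw [h3, h1]
    · right; exact ⟨by rw [← h1, h3], h4⟩
  · rcases h' x with h3 | ⟨h3, h4⟩
    · right; exact ⟨h1, v, by rw [h3, h2]⟩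
    · rw [h2] at h3; cases h3

open Classical in
/-- The number of unknown entries in `C`. -/
noncomputable def unk (C : Finset (Q × Z)) (M : Q × Z → Entry Q Z) : ℕ :=
  (C.filter fun x => M x = .none).card

theorem unk_update {C : Finset (Q × Z)} {M : Q × Z → Entry Q Z} {c : Q × Z} (hc : c ∈ C)
    (hM : M c = .none) {e : Entry Q Z} (he : e ≠ .none) :
    unk C M = unk C (Function.update M c e) + 1 := by
  classical
  unfold unk
  have : (C.filter fun x => M x = .none) =
      insert c (C.filter fun x => Function.update M c e x = .none) := by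
    ext x
    simp only [Finset.mem_filter, Finset.mem_insert]
    by_cases hx : x = c
    · subst hx
      simp [hM, hc]
    · rw [Function.update_of_ne hx]
      simp [hx]
  rw [this, Finset.card_insert_of_notMem]
  simp only [Finset.mem_filter, Function.update_self, not_and]
  exact fun _ => he

theorem unk_update_ne {C : Finset (Q × Z)} {M : Q × Z → Entry Q Z} {c : Q × Z}
    (hM : M c ≠ .none) {e : Entry Q Z} (he : e ≠ .none) :
    unk C (Function.update M c e) = unk C M := by
  classical
  unfold unk
  congr 1
  ext x
  simp only [Finset.mem_filter]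
  by_cases hx : x = c
  · subst hx
    simp [hM, he]
  · rw [Function.update_of_ne hx]

open Classical in
/-- The number of elements of `V` whose evaluation takes at most `m` steps. -/
noncomputable def cnt (P : PD Q Z) (V : Finset (Q × Z)) (m : ℕ) : ℕ :=
  (V.filter fun x => ∃ m' o', EvU P x m' o' ∧ m' ≤ m).card

omit [DecidableEq (Q × Z)] in
theorem cnt_le (P : PD Q Z) (V : Finset (Q × Z)) (m : ℕ) : cnt P V m ≤ V.card := by
  classical
  exact Finset.card_filter_le _ _

omit [DecidableEq (Q × Z)] in
theorem cnt_lt {P : PD Q Z} {V : Finset (Q × Z)} {c : Q × Z} {m m1 : ℕ} {o : Option Q}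
    (hc : c ∈ V) (he : EvU P c m o) (h : m1 < m) : cnt P V m1 + 1 ≤ cnt P V m := by
  classical
  unfold cnt
  rw [← Finset.card_insert_of_notMem (s := V.filter fun x => ∃ m' o', EvU P x m' o' ∧ m' ≤ m1)
    (a := c)]
  · refine Finset.card_le_card fun x hx => ?_
    rcases Finset.mem_insert.1 hx with rfl | hx
    · exact Finset.mem_filter.2 ⟨hc, m, o, he, le_rfl⟩
    · obtain ⟨h1, m', o', h2, h3⟩ := Finset.mem_filter.1 hx
      exact Finset.mem_filter.2 ⟨h1, m', o', h2, by omega⟩
  · intro hx
    obtain ⟨_, m', o', h2, h3⟩ := Finset.mem_filter.1 hx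
    have := (he.det h2).1
    omega

/-- The main lemma: correctness, running time and number of changes. -/
theorem call_spec (P : PD Q Z) (V C : Finset (Q × Z)) {c : Q × Z} {m : ℕ} {o : Option Q}
    (h : Ev P (V : Set (Q × Z)) (C : Set (Q × Z)) c m o) :
    ∀ (p : Option (Q × Z)) (M : Q × Z → Entry Q Z),
    Inv P M → (∀ x, Wait M x → ∀ m' o', EvU P x m' o' → m ≤ m') →
    (∀ v, o = some v → ∃ k M', srun P k (.call c p, M) = (.ret p v, M') ∧ Ext M M' ∧ Inv P M' ∧
      k + (2 * V.card + 2) * unk C M' ≤ (2 * V.card + 2) * unk C M + 2 * cnt P V m + 1 ∧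
      sct P k (.call c p, M) + 2 * unk C M' ≤ 2 * unk C M) ∧
    (o = none → ∃ k M', srun P k (.call c p, M) = (.acc, M') ∧
      k ≤ (2 * V.card + 2) * unk C M + 2 * cnt P V m + 1 ∧
      sct P k (.call c p, M) ≤ 2 * unk C M) := by
  classical
  induction h with
  | acc q z hq =>
    intro p M _ _
    refine ⟨fun v hv => (by cases hv), fun _ => ?_⟩
    have e : sstep P (.call (q, z) p, M) = (.acc, M) := by simp only [sstep, hq, if_true]
    refine ⟨1, M, ?_, by omega, ?_⟩
    · rw [srun_one, e]
    · rw [sct_one_zero P _ (by rw [e])]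
      omega
  | popAcc q z v h1 h2 h3 h4 =>
    intro p M hI hW
    refine ⟨fun v hv => (by cases hv), fun _ => ?_⟩
    have e : sstep P (.call (q, z) p, M) = (.acc, M) := by
      simp only [sstep, h1, if_false, h3, h4, if_true]
    refine ⟨1, M, ?_, by omega, ?_⟩
    · rw [srun_one, e]
    · rw [sct_one_zero P _ (by rw [e])]
      omega
  | pop q z v h1 h2 h3 h4 =>
    intro p M hI hW
    refine ⟨fun v' hv => ?_, fun h => by cases h⟩
    cases hv
    have e : sstep P (.call (q, z) p, M) = (.ret p v, M) := by
      simp only [sstep, h1, if_false, h3, h4]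
    refine ⟨1, M, ?_, Ext.refl _, hI, by omega, ?_⟩
    · rw [srun_one, e]
    · rw [sct_one_zero P _ (by rw [e])]
      omega
  | stay q z q' z' m o h1 h2 h3 h4 ih =>
    intro p M hI hW
    have hev : EvU P (q, z) (m + 1) o := Ev.stay q z q' z' m o h1 trivial h3 h4.toU
    have e : sstep P (.call (q, z) p, M) = (.call (q', z') p, M) := by
      simp only [sstep, h1, if_false, h3]
    have hcnt := cnt_lt (V := V) (m1 := m) h2 hev (by omega)
    obtain ⟨ih1, ih2⟩ := ih p M hI (fun x hx m' o' he => by
      have := hW x hx m' o' he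
      omega)
    constructor
    · intro v hv
      obtain ⟨k, M', hk, hext, hI', hb, hs⟩ := ih1 v hv
      refine ⟨1 + k, M', ?_, hext, hI', by omega, ?_⟩
      · rw [srun_add, srun_one, e, hk]
      · rw [sct_add, sct_one_zero P _ (by rw [e]), srun_one, e]
        omega
    · intro ho
      obtain ⟨k, M', hk, hb, hs⟩ := ih2 ho
      refine ⟨1 + k, M', ?_, by omega, ?_⟩
      · rw [srun_add, srun_one, e, hk]
      · rw [sct_add, sct_one_zero P _ (by rw [e]), srun_one, e]
        omega
  | pushAcc q z q' z' m h1 h2 h3 hC h4 ih =>
    intro p M hI hW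
    refine ⟨fun v hv => (by cases hv), fun _ => ?_⟩
    have hev : EvU P (q, z) (m + 1) none := Ev.pushAcc q z q' z' m h1 trivial h3 trivial h4.toU
    rcases hMc : M (q', z') with _ | ⟨z1, p1⟩ | v'
    · set M1 := Function.update M (q', z') (Entry.link z p) with hM1
      have e : sstep P (.call (q, z) p, M) = (.call (q', z') (some (q', z')), M1) := by
        simp only [sstep, h1, if_false, h3, hMc, hM1]
      have hI1 : Inv P M1 := by
        intro x w hw
        by_cases hx : x = (q', z')
        · subst hx
          rw [hM1, Function.update_self] at hw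
          cases hw
        · rw [hM1, Function.update_of_ne hx] at hw
          exact hI x w hw
      have hW1 : ∀ x, Wait M1 x → ∀ m' o', EvU P x m' o' → m ≤ m' := by
        intro x hx m' o' he
        by_cases hxc : x = (q', z')
        · subst hxc
          have := (he.det h4).1
          omega
        · have hx' : Wait M x := by
            unfold Wait at hx ⊢
            rwa [hM1, Function.update_of_ne hxc] at hx
          have := hW x hx' m' o' he
          omega
      have hu := unk_update (C := C) hC hMc (e := .link z p) (by simp)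
      rw [← hM1] at hu
      obtain ⟨k, M2, hk, hb, hs⟩ := (ih (some (q', z')) M1 hI1 hW1).2 rfl
      have hcn := cnt_le P V m
      refine ⟨1 + k, M2, ?_, ?_, ?_⟩
      · rw [srun_add, srun_one, e, hk]
      · rw [hu, Nat.mul_add]
        omega
      · rw [sct_add, srun_one, e]
        have := sct_one_le P (.call (q, z) p, M)
        omega
    · exfalso
      have := hW _ ⟨_, _, hMc⟩ _ _ h4.toU
      omega
    · exfalso
      obtain ⟨m', h⟩ := hI _ _ hMc
      have ho := (h.det h4).2
      cases ho
  | push q z q' z' m v m1 o h1 h2 h3 hC h4 h5 ih1 ih2 =>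
    intro p M hI hW
    have hev : EvU P (q, z) (m + m1 + 1) o :=
      Ev.push q z q' z' m v m1 o h1 trivial h3 trivial h4.toU h5.toU
    have hcnt := cnt_lt (V := V) (m1 := m1) h2 hev (by omega)
    rcases hMc : M (q', z') with _ | ⟨z1, p1⟩ | v'
    · set M1 := Function.update M (q', z') (Entry.link z p) with hM1
      have e : sstep P (.call (q, z) p, M) = (.call (q', z') (some (q', z')), M1) := by
        simp only [sstep, h1, if_false, h3, hMc, hM1]
      have hI1 : Inv P M1 := by
        intro x w hw
        by_cases hx : x = (q', z')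
        · subst hx
          rw [hM1, Function.update_self] at hw
          cases hw
        · rw [hM1, Function.update_of_ne hx] at hw
          exact hI x w hw
      have hW1 : ∀ x, Wait M1 x → ∀ m' o', EvU P x m' o' → m ≤ m' := by
        intro x hx m' o' he
        by_cases hxc : x = (q', z')
        · subst hxc
          have := (he.det h4).1
          omega
        · have hx' : Wait M x := by
            unfold Wait at hx ⊢
            rwa [hM1, Function.update_of_ne hxc] at hx
          have := hW x hx' m' o' he
          omega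
      have hu := unk_update (C := C) hC hMc (e := .link z p) (by simp)
      rw [← hM1] at hu
      obtain ⟨k, M2, hk, hext, hI2, hb, hs⟩ := (ih1 (some (q', z')) M1 hI1 hW1).1 v rfl
      have hM2 : M2 (q', z') = .link z p := by
        rcases hext (q', z') with h | ⟨h, _⟩
        · rw [h, hM1, Function.update_self]
        · rw [hM1, Function.update_self] at h
          cases h
      set M3 := Function.update M2 (q', z') (Entry.done v) with hM3
      have e2 : sstep P (.ret (some (q', z')) v, M2) = (.call (v, z) p, M3) := by
        simp only [sstep, hM2, hM3]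
      have hI3 : Inv P M3 := by
        intro x w hw
        by_cases hx : x = (q', z')
        · subst hx
          rw [hM3, Function.update_self] at hw
          cases hw
          exact ⟨m, h4.toU⟩
        · rw [hM3, Function.update_of_ne hx] at hw
          exact hI2 x w hw
      have hW3 : ∀ x, Wait M3 x → ∀ m' o', EvU P x m' o' → m1 ≤ m' := by
        intro x hx m' o' he
        by_cases hxc : x = (q', z')
        · subst hxc
          obtain ⟨_, _, hx⟩ := hx
          rw [hM3, Function.update_self] at hx
          cases hx
        · have hx' : Wait M x := by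
            unfold Wait at hx ⊢
            rw [hM3, Function.update_of_ne hxc] at hx
            rcases hext x with h | ⟨h, w, h'⟩
            · rwa [h, hM1, Function.update_of_ne hxc] at hx
            · rw [h'] at hx
              obtain ⟨_, _, hx⟩ := hx
              cases hx
          have := hW x hx' m' o' he
          omega
      have hu3 := unk_update_ne (C := C) (M := M2) (c := (q', z')) (by rw [hM2]; simp)
        (e := Entry.done v) (by simp)
      rw [← hM3] at hu3
      have hext3 : Ext M M3 := by
        intro x
        by_cases hx : x = (q', z')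
        · subst hx
          right
          exact ⟨hMc, v, by rw [hM3, Function.update_self]⟩
        · rw [hM3, Function.update_of_ne hx]
          rcases hext x with h | ⟨h, h'⟩
          · left
            rw [h, hM1, Function.update_of_ne hx]
          · right
            rw [hM1, Function.update_of_ne hx] at h
            exact ⟨h, h'⟩
      obtain ⟨ih3, ih4⟩ := ih2 p M3 hI3 hW3
      have hcn := cnt_le P V m
      have hrun : srun P (1 + k + 1) (.call (q, z) p, M) = (.call (v, z) p, M3) := by
        rw [srun_add, srun_add, srun_one P (.call (q, z) p, M), e, hk, srun_one, e2]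
      have hsct : sct P (1 + k + 1) (.call (q, z) p, M) + 2 * unk C M3 ≤ 2 * unk C M := by
        rw [sct_add, sct_add, srun_add, srun_one P (.call (q, z) p, M), e, hk]
        have a1 := sct_one_le P (.call (q, z) p, M)
        have a2 := sct_one_le P (.ret (some (q', z')) v, M2)
        omega
      constructor
      · intro v' hv'
        obtain ⟨k', M4, hk', hext', hI4, hb', hs'⟩ := ih3 v' hv'
        refine ⟨1 + k + 1 + k', M4, ?_, hext3.trans hext', hI4, ?_, ?_⟩
        · rw [srun_add, hrun, hk']
        · rw [hu3] at hb'
          rw [hu, Nat.mul_add]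
          omega
        · rw [sct_add, hrun]
          omega
      · intro ho
        obtain ⟨k', M4, hk', hb', hs'⟩ := ih4 ho
        refine ⟨1 + k + 1 + k', M4, ?_, ?_, ?_⟩
        · rw [srun_add, hrun, hk']
        · rw [hu3] at hb'
          rw [hu, Nat.mul_add]
          omega
        · rw [sct_add, hrun]
          omega
    · exfalso
      have := hW _ ⟨_, _, hMc⟩ _ _ h4.toU
      omega
    · obtain ⟨m', h⟩ := hI _ _ hMc
      have ho := (h.det h4).2
      cases ho
      have e : sstep P (.call (q, z) p, M) = (.call (v, z) p, M) := by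
        simp only [sstep, h1, if_false, h3, hMc]
      obtain ⟨ih3, ih4⟩ := ih2 p M hI (fun x hx m' o' he => by
        have := hW x hx m' o' he
        omega)
      constructor
      · intro v hv
        obtain ⟨k, M', hk, hext, hI', hb, hs⟩ := ih3 v hv
        refine ⟨1 + k, M', ?_, hext, hI', by omega, ?_⟩
        · rw [srun_add, srun_one, e, hk]
        · rw [sct_add, sct_one_zero P _ (by rw [e]), srun_one, e]
          omega
      · intro ho
        obtain ⟨k, M', hk, hb, hs⟩ := ih4 ho
        refine ⟨1 + k, M', ?_, by omega, ?_⟩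
        · rw [srun_add, srun_one, e, hk]
        · rw [sct_add, sct_one_zero P _ (by rw [e]), srun_one, e]
          omega

/-- Completeness of the simulation, with its running time and the number of changes. -/
theorem complete (P : PD Q Z) (V C : Finset (Q × Z)) (q : Q) (z : Z) (T : ℕ)
    (h1 : ∀ t < T, ¬ P.acc (P.run t (q, [z])).1)
    (h2 : ∀ t < T, ∀ z' st', (P.run t (q, [z])).2 = z' :: st' → ((P.run t (q, [z])).1, z') ∈ V)
    (hc : ∀ t < T, ∀ z' st' q'' z'', (P.run t (q, [z])).2 = z' :: st' →
      P.mv (P.run t (q, [z])).1 z' = .push q'' z'' → (q'', z'') ∈ C)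
    (h3 : P.acc (P.run T (q, [z])).1) :
    ∃ k M, srun P k (.call (q, z) none, fun _ => .none) = (.acc, M) ∧
      k ≤ (2 * V.card + 2) * (C.card + 1) ∧
      sct P k (.call (q, z) none, fun _ => .none) ≤ 2 * C.card := by
  classical
  have hu : unk C (fun _ => Entry.none) ≤ C.card := Finset.card_filter_le _ _
  rcases exists_ev P (V : Set (Q × Z)) (C : Set (Q × Z)) T q z [] h1 h2 hc h3 with
    h | ⟨m, hm, v, hev, hr, hv⟩
  · obtain ⟨k, M', hk, hb, hs⟩ := (call_spec P V C h none (fun _ => .none)
      (fun x v h => by cases h) (fun x hx => by obtain ⟨_, _, hx⟩ := hx; cases hx)).2 rfl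
    refine ⟨k, M', hk, ?_, by omega⟩
    have h4 := cnt_le P V T
    have h5 : (2 * V.card + 2) * unk C (fun _ => Entry.none) ≤ (2 * V.card + 2) * C.card :=
      Nat.mul_le_mul_left _ hu
    rw [Nat.mul_add]
    omega
  · exfalso
    obtain ⟨t, rfl⟩ : ∃ t, T = m + t := ⟨T - m, by omega⟩
    rw [P.run_add, hr, P.run_nil] at h3
    exact hv h3

/-! ### Soundness -/

omit [DecidableEq (Q × Z)] in
/-- The chain of the calls: `Chain P M p c st l` means that the machine is in the surface
configuration `c` of the call `p`, the stack below the top is `st`, and `l` is the list of the calls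
in progress. -/
inductive Chain (P : PD Q Z) (M : Q × Z → Entry Q Z) :
    Option (Q × Z) → Q × Z → List Z → List (Q × Z) → Prop
  | nil (c : Q × Z) : Chain P M none c [] []
  | call (x c c2 : Q × Z) (pp : Option (Q × Z)) (st : List Z) (l : List (Q × Z)) :
      M x = .link c2.2 pp → x ∉ l → (∀ m o, EvU P c m o → ∃ m', EvU P x m' o) →
      ¬ P.acc c2.1 → P.mv c2.1 c2.2 = .push x.1 x.2 →
      Chain P M pp c2 st l → Chain P M (some x) c (c2.2 :: st) (x :: l)

omit [DecidableEq (Q × Z)] in
theorem Chain.congr {P : PD Q Z} {M M' : Q × Z → Entry Q Z} {p : Option (Q × Z)} {c : Q × Z}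
    {st : List Z} {l : List (Q × Z)} (h : Chain P M p c st l) (hM : ∀ x ∈ l, M' x = M x) :
    Chain P M' p c st l := by
  induction h with
  | nil c => exact .nil c
  | call x c c2 pp st l h1 h2 h3 h4 h5 _ ih =>
    exact .call x c c2 pp st l (by rw [hM x (by simp), h1]) h2 h3 h4 h5
      (ih fun y hy => hM y (by simp [hy]))

omit [DecidableEq (Q × Z)] in
theorem Chain.wait {P : PD Q Z} {M : Q × Z → Entry Q Z} {p : Option (Q × Z)} {c : Q × Z}
    {st : List Z} {l : List (Q × Z)} (h : Chain P M p c st l) : ∀ x ∈ l, Wait M x := by
  induction h with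
  | nil c => intro x hx; cases hx
  | call x c c2 pp st l h1 h2 h3 h4 h5 _ ih =>
    intro y hy
    rcases List.mem_cons.1 hy with rfl | hy
    · exact ⟨_, _, h1⟩
    · exact ih y hy

omit [DecidableEq (Q × Z)] in
theorem Chain.cur {P : PD Q Z} {M : Q × Z → Entry Q Z} {p : Option (Q × Z)} {c c' : Q × Z}
    {st : List Z} {l : List (Q × Z)} (h : Chain P M p c st l)
    (hc : ∀ m o, EvU P c' m o → ∃ m', EvU P c m' o) : Chain P M p c' st l := by
  cases h with
  | nil c => exact .nil c'
  | call x c c2 pp st l h1 h2 h3 h4 h5 h6 =>
    refine .call x c' c2 pp st l h1 h2 (fun m o he => ?_) h4 h5 h6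
    obtain ⟨m', he'⟩ := hc m o he
    exact h3 m' o he'

/-- The invariant of the simulation, for the start configuration `c₀`. -/
def SInv (P : PD Q Z) (c₀ : Q × List Z) : SS Q Z × (Q × Z → Entry Q Z) → Prop
  | (.halt, _) => True
  | (.acc, _) => ∃ t, P.acc (P.run t c₀).1
  | (.call c p, M) => Inv P M ∧ ∃ st l, Chain P M p c st l ∧ ∃ t, P.run t c₀ = (c.1, c.2 :: st)
  | (.ret p v, M) => Inv P M ∧ ∃ st l c m, Chain P M p c st l ∧ EvU P c m (some v) ∧
      ∃ t, P.run t c₀ = (v, st)

theorem SInv.step {P : PD Q Z} {c₀ : Q × List Z} : ∀ {s : SS Q Z × (Q × Z → Entry Q Z)},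
    SInv P c₀ s → SInv P c₀ (sstep P s) := by
  classical
  rintro ⟨s, M⟩ h
  rcases s with _ | _ | ⟨c, p⟩ | ⟨p, v⟩
  · trivial
  · exact h
  · obtain ⟨hI, st, l, hC, t, ht⟩ := h
    by_cases hacc : P.acc c.1
    · have e : sstep P (.call c p, M) = (.acc, M) := by simp only [sstep, hacc, if_true]
      rw [e]
      exact ⟨t, by rw [ht]; exact hacc⟩
    · rcases hmv : P.mv c.1 c.2 with _ | v | ⟨q', z'⟩ | ⟨q', z'⟩
      · have e : sstep P (.call c p, M) = (.halt, M) := by
          simp only [sstep, hacc, if_false, hmv]
        rw [e]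
        trivial
      · have hstep : P.run (t + 1) c₀ = (v, st) := by
          rw [P.run_add, ht, P.run_one]
          simp only [PD.step, hmv]
        by_cases hv : P.acc v
        · have e : sstep P (.call c p, M) = (.acc, M) := by
            simp only [sstep, hacc, if_false, hmv, hv, if_true]
          rw [e]
          exact ⟨t + 1, by rw [hstep]; exact hv⟩
        · have e : sstep P (.call c p, M) = (.ret p v, M) := by
            simp only [sstep, hacc, if_false, hmv, hv]
          rw [e]
          have hev : EvU P c 1 (some v) := Ev.pop c.1 c.2 v hacc trivial hmv hv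
          exact ⟨hI, st, l, c, 1, hC, hev, t + 1, hstep⟩
      · have e : sstep P (.call c p, M) = (.call (q', z') p, M) := by
          simp only [sstep, hacc, if_false, hmv]
        rw [e]
        refine ⟨hI, st, l, hC.cur ?_, t + 1, ?_⟩
        · intro m o hev
          exact ⟨m + 1, Ev.stay c.1 c.2 q' z' m o hacc trivial hmv hev⟩
        · rw [P.run_add, ht, P.run_one]
          simp only [PD.step, hmv]
      · have hstep : P.run (t + 1) c₀ = (q', z' :: c.2 :: st) := by
          rw [P.run_add, ht, P.run_one]
          simp only [PD.step, hmv]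
        rcases hMc : M (q', z') with _ | ⟨z1, p1⟩ | v
        · have e : sstep P (.call c p, M) = (.call (q', z') (some (q', z')),
              Function.update M (q', z') (.link c.2 p)) := by
            simp only [sstep, hacc, if_false, hmv, hMc]
          rw [e]
          have hcl : (q', z') ∉ l := by
            intro hx
            obtain ⟨_, _, h⟩ := hC.wait _ hx
            rw [hMc] at h
            cases h
          refine ⟨?_, c.2 :: st, (q', z') :: l, ?_, t + 1, hstep⟩
          · intro x w hw
            by_cases hx : x = (q', z')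
            · subst hx
              rw [Function.update_self] at hw
              cases hw
            · rw [Function.update_of_ne hx] at hw
              exact hI x w hw
          · refine .call (q', z') (q', z') c p st l (Function.update_self _ _ _) hcl
              (fun m o he => ⟨m, he⟩) hacc hmv ?_
            refine hC.congr fun x hx => ?_
            rw [Function.update_of_ne]
            rintro rfl
            exact hcl hx
        · have e : sstep P (.call c p, M) = (.halt, M) := by
            simp only [sstep, hacc, if_false, hmv, hMc]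
          rw [e]
          trivial
        · have e : sstep P (.call c p, M) = (.call (v, c.2) p, M) := by
            simp only [sstep, hacc, if_false, hmv, hMc]
          rw [e]
          obtain ⟨m, hev⟩ := hI _ v hMc
          refine ⟨hI, st, l, hC.cur ?_, t + 1 + m, ?_⟩
          · intro m' o' hev'
            exact ⟨m + m' + 1, Ev.push c.1 c.2 q' z' m v m' o' hacc trivial hmv trivial hev hev'⟩
          · rw [P.run_add, hstep]
            exact hev.run_some v rfl (c.2 :: st)
  · obtain ⟨hI, st, l, c, m, hC, hev, t, ht⟩ := h
    cases hC with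
    | nil => trivial
    | call x _ c2 pp st' l h1 h2 h3 h4 h5 h6 =>
      have e : sstep P (.ret (some x) v, M) =
          (.call (v, c2.2) pp, Function.update M x (.done v)) := by
        simp only [sstep, h1]
      rw [e]
      obtain ⟨mx, hx⟩ := h3 m _ hev
      refine ⟨?_, st', l, ?_, t, ht⟩
      · intro y w hw
        by_cases hxy : y = x
        · subst hxy
          rw [Function.update_self] at hw
          cases hw
          exact ⟨mx, hx⟩
        · rw [Function.update_of_ne hxy] at hw
          exact hI y w hw
      · refine Chain.cur (c := c2) (h6.congr fun y hy => ?_) ?_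
        · rw [Function.update_of_ne]
          rintro rfl
          exact h2 hy
        · intro m' o' hev'
          exact ⟨mx + m' + 1, Ev.push c2.1 c2.2 x.1 x.2 mx v m' o' h4 trivial h5 trivial hx hev'⟩

/-- Soundness of the simulation. -/
theorem sound (P : PD Q Z) (q : Q) (z : Z) (k : ℕ) (M : Q × Z → Entry Q Z)
    (h : srun P k (.call (q, z) none, fun _ => .none) = (.acc, M)) :
    ∃ t, P.acc (P.run t (q, [z])).1 := by
  have h1 : ∀ k, SInv P (q, [z]) (srun P k (.call (q, z) none, fun _ => .none)) := by
    intro k
    induction k with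
    | zero =>
      refine ⟨fun x v h => (by cases h), [], [], .nil _, 0, rfl⟩
    | succ k ih =>
      rw [srun_add, srun_one]
      exact ih.step
  have h2 := h1 k
  rw [h] at h2
  exact h2

end

end Pool.Agent.Helper20.APC
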