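import Pool.Agent.Helper20.APD.Defs
import Mathlib.Analysis.SpecialFunctions.Pow.Real

set_option autoImplicit false

/-!
# Auxiliary pushdown machines with few calls: definitions
-/

namespace Pool.Agent.Helper20.APD

/-- The calls up to the time `t`: the surface configurations (state and top symbol of the store)
directly after a symbol has been put on the top of the store. -/
def PDM.calls (A : PDM) (w y : List Bool) (t : ℕ) : Set (List Bool × List Bool) :=
  {x | ∃ τ < t, ∃ z st, (A.conf w y τ).2 = z :: st ∧
    A.conf w y (τ + 1) = (x.1, x.2 :: z :: st)}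

/-- `A` accepts the input word `w` with the guessed word `y` at some time `t` and within the
following bounds, where `n` is the length of `w`. States, addresses and the words on the store have
at most `s` bits, there are at most `x` different calls and at most `2 ^ h` different surface
configurations. For `l = h + ⌊log₂ n⌋ + 1`: `x s l ^ 2 ≤ C (n + 1) ^ (3 / 2)` and
`s (h + 1) l ≤ C (n + 1) ^ (1 / 2)`. There is no bound on the time and on the height of the
store. -/
def PDM.Within (A : PDM) (C : ℝ) (w y : List Bool) : Prop :=
  ∃ t s x h : ℕ, (A.calls w y t).ncard ≤ x ∧ (A.surf w y t).ncard ≤ 2 ^ h ∧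
    (x : ℝ) * s * ((h : ℝ) + ((Nat.log 2 w.length : ℝ) + 1)) ^ 2 ≤
      C * ((w.length : ℝ) + 1) ^ ((3 : ℝ) / 2) ∧
    (s : ℝ) * ((h : ℝ) + 1) * ((h : ℝ) + ((Nat.log 2 w.length : ℝ) + 1)) ≤
      C * ((w.length : ℝ) + 1) ^ ((1 : ℝ) / 2) ∧
    A.Fits w y t s ∧ A.AcceptsAt w y t

end Pool.Agent.Helper20.APD
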