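import Pool.Agent.Helper20.APC.Mach
import Pool.Agent.Helper20.APD.Fam
import Pool.Agent.Helper28.Few.Main

set_option autoImplicit false

/-!
# The machines on numbers form a family computed in linear space
-/

namespace Pool.Agent.Helper20.APC

open Pool.Agent.Helper65.LinSpace Pool.Agent.Helper78.Mpc Pool.Agent.Helper28.Ram Finset
open Pool.Agent.Helper28.Few (hX gH_pos gH_le hX_mul_le hX_eq CR_le_CH LS_gH LS_hX)
open Pool.Agent.Helper28.Long (pow_le_CR)
open Pool.Agent.Helper81.Tok2 (gH CH Par)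
open Pool.Agent.Helper20.APD (NF NF.Ok NF.pd mkX kX phX lX sX pX NF.IsLS nf nf_ok argN lcN ls_ad
  ls_kd ls_nq ls_nz)
open Pool.Agent.Helper20

section

variable {α : Type} [Ctx α] {F : α → NF} (hF : NF.IsLS F) {B : α → ℕ} (hB : LS B) {β : Type}
  [Ctx β] {π : β → α} (hπ : LS π)

include hF hB hπ

theorem ls_AA {X : β → ℕ} (hX : LS X) : LS (fun b => AA (F (π b)) (B (π b)) (X b)) := by
  have hB' : LS (fun b => B (π b)) := LS.comp (g := B) hB hπ
  have h1 := APD.LS.kX hX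
  have h2 := APD.LS.phX hX
  have h3 := APD.LS.sX hB' hX
  have h4 := APD.LS.pX hB' hX
  have h5 := APD.LS.lX hX
  have hm : LS (fun b => sX (B (π b)) (X b) % B (π b)) := LS.mod h3 hB'
  have hd : LS (fun b => sX (B (π b)) (X b) / B (π b)) := LS.div h3 hB'
  have h6 := ls_ad hF hπ hm
  have h7 := ls_kd hF hπ hm hd h5
  have h8 := ls_nq hF hπ hm hd h5
  have h9 := ls_nz hF hπ hm hd h5
  unfold AA
  exact LS.ifz h2 (LS.ifz (LS.eq01 h1 (LS.const 2)) (LS.const 0) h6)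
    (LS.ifz (LS.eq01 h1 (LS.const 2)) h4
      (LS.ifz (LS.sub h7 (LS.const 2)) (LS.const 0) (LS.add h8 (LS.mul hB' h9))))

theorem ls_N0 {q z l p v : β → ℕ} (hq : LS q) (hz : LS z) (hl : LS l) (hp : LS p) (hv : LS v) :
    LS (fun b => N0 (F (π b)) (B (π b)) (q b) (z b) (l b) (p b) (v b)) := by
  have hB' : LS (fun b => B (π b)) := LS.comp (g := B) hB hπ
  have h1 := ls_kd hF hπ hq hz hl
  have h2 := ls_nq hF hπ hq hz hl
  have h3 := ls_nz hF hπ hq hz hl
  have h4 := LS.add h2 (LS.mul hB' h3)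
  have hv4 : LS (fun b => v b % 4) := LS.mod hv (LS.const 4)
  have hvd : LS (fun b => v b / 4) := LS.div hv (LS.const 4)
  unfold N0
  exact LS.ifz h1 (LS.const 0) (LS.ifz (LS.sub h1 (LS.const 1))
    (LS.ifz (APD.LS.accN h2) (APD.LS.mkX hB' (LS.const 3) (LS.const 0) (LS.const 0) h2 hp)
      (LS.const 1))
    (LS.ifz (LS.sub h1 (LS.const 2))
      (APD.LS.mkX hB' (LS.const 2) (LS.const 0) (LS.const 0) h4 hp)
      (LS.ifz hv4 (APD.LS.mkX hB' (LS.const 2) (LS.const 0) (LS.const 0) h4 h4)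
        (LS.ifz (LS.sub hv4 (LS.const 1)) (LS.const 0)
          (APD.LS.mkX hB' (LS.const 2) (LS.const 0) (LS.const 0) (LS.add hvd (LS.mul hB' hz))
            hp)))))

theorem ls_NN {X v : β → ℕ} (hX : LS X) (hv : LS v) :
    LS (fun b => NN (F (π b)) (B (π b)) (X b) (v b)) := by
  have hB' : LS (fun b => B (π b)) := LS.comp (g := B) hB hπ
  have h1 := APD.LS.kX hX
  have h2 := APD.LS.phX hX
  have h3 := APD.LS.sX hB' hX
  have h4 := APD.LS.pX hB' hX
  have h5 := APD.LS.lX hX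
  have hm : LS (fun b => sX (B (π b)) (X b) % B (π b)) := LS.mod h3 hB'
  have hd : LS (fun b => sX (B (π b)) (X b) / B (π b)) := LS.div h3 hB'
  have h6 := ls_N0 hF hB hπ hm hd h5 h4 hv
  have hv4 : LS (fun b => v b % 4) := LS.mod hv (LS.const 4)
  have hvd : LS (fun b => v b / 4) := LS.div hv (LS.const 4)
  unfold NN
  exact LS.ifz (LS.div h1 (LS.const 2)) hX (LS.ifz h2
    (APD.LS.mkX hB' h1 (LS.const 1) (LS.mod hv (LS.const 9)) h3 h4)
    (LS.ifz (LS.sub h1 (LS.const 2)) (LS.ifz (APD.LS.accN hm) h6 (LS.const 1))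
      (LS.ifz h4 (LS.const 0)
        (LS.ifz hv4 (LS.const 0) (LS.ifz (LS.sub hv4 (LS.const 1))
          (APD.LS.mkX hB' (LS.const 2) (LS.const 0) (LS.const 0)
            (LS.add h3 (LS.mul hB' (LS.mod hvd hB'))) (LS.div hvd hB')) (LS.const 0))))))

theorem ls_W0 {q z l p v : β → ℕ} (hq : LS q) (hz : LS z) (hl : LS l) (hp : LS p) (hv : LS v) :
    LS (fun b => W0 (F (π b)) (B (π b)) (q b) (z b) (l b) (p b) (v b)) := by
  have hB' : LS (fun b => B (π b)) := LS.comp (g := B) hB hπ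
  have h1 := ls_kd hF hπ hq hz hl
  have hv4 : LS (fun b => v b % 4) := LS.mod hv (LS.const 4)
  unfold W0
  exact LS.ifz (LS.sub h1 (LS.const 2)) hv (LS.ifz hv4
    (LS.add (LS.const 1) (LS.mul (LS.const 4) (LS.add hz (LS.mul hB' hp)))) hv)

theorem ls_WW {X v : β → ℕ} (hX : LS X) (hv : LS v) :
    LS (fun b => WW (F (π b)) (B (π b)) (X b) (v b)) := by
  have hB' : LS (fun b => B (π b)) := LS.comp (g := B) hB hπ
  have h1 := APD.LS.kX hX
  have h2 := APD.LS.phX hX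
  have h3 := APD.LS.sX hB' hX
  have h4 := APD.LS.pX hB' hX
  have h5 := APD.LS.lX hX
  have hm : LS (fun b => sX (B (π b)) (X b) % B (π b)) := LS.mod h3 hB'
  have hd : LS (fun b => sX (B (π b)) (X b) / B (π b)) := LS.div h3 hB'
  have h6 := ls_W0 hF hB hπ hm hd h5 h4 hv
  have hv4 : LS (fun b => v b % 4) := LS.mod hv (LS.const 4)
  unfold WW
  exact LS.ifz (LS.div h1 (LS.const 2)) hv (LS.ifz h2 hv
    (LS.ifz (LS.sub h1 (LS.const 2)) (LS.ifz (APD.LS.accN hm) h6 hv)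
      (LS.ifz h4 hv
        (LS.ifz hv4 hv (LS.ifz (LS.sub hv4 (LS.const 1))
          (LS.add (LS.const 2) (LS.mul (LS.const 4) h3)) hv)))))

end

/-! ### The family -/

/-- The number of bits. -/
def sg (n S h : ℕ) : ℕ := min S (gH n (hX n S h) - 1) + 1

/-- The length of the words. -/
def tl (n S h : ℕ) : ℕ := (sg n S h - 11) / 4

/-- The machines. -/
def machQ (eA eN eO ini B0 st bo x y S h : ℕ) : Pool.Agent.Helper81.Tok2.Mach :=
  machB (nf eA eN eO ini B0 (tl (Nat.log 2 x) S h) (LW (Nat.log 2 x))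
    (2 ^ (2 * ll (Nat.log 2 x))) (CR x)) (2 ^ (tl (Nat.log 2 x) S h + 1)) (sg (Nat.log 2 x) S h)
    (gH (Nat.log 2 x) (hX (Nat.log 2 x) S h) / sg (Nat.log 2 x) S h)
    (gH (Nat.log 2 x) (hX (Nat.log 2 x) S h)) (hX (Nat.log 2 x) S h)
    (capN (tl (Nat.log 2 x) S h) st) (capN (tl (Nat.log 2 x) S h) bo) (lcN x y)

theorem tl_le (n S h : ℕ) : tl n S h + 1 ≤ sg n S h := by
  unfold tl sg
  omega

theorem sg_le (n S h : ℕ) : sg n S h ≤ gH n (hX n S h) := by
  have := gH_pos n (hX n S h)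
  unfold sg
  omega

theorem par_machQ (eA eN eO ini B0 st bo x y S h : ℕ) :
    Par (Nat.log 2 x) (machQ eA eN eO ini B0 st bo x y S h) := by
  have h0 := gH_pos (Nat.log 2 x) (hX (Nat.log 2 x) S h)
  have h3 := hX_mul_le (Nat.log 2 x) S h
  have h4 := sg_le (Nat.log 2 x) S h
  have h5 : sg (Nat.log 2 x) S h ≤ S + 1 := by
    unfold sg
    omega
  refine ⟨h4, ?_, rfl, rfl, ?_⟩
  · show (sg (Nat.log 2 x) S h + 1) * hX (Nat.log 2 x) S h ≤ gH (Nat.log 2 x) (hX (Nat.log 2 x) S h)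
    exact le_trans (Nat.mul_le_mul_right _ (by omega)) h3
  · show sg (Nat.log 2 x) S h ≤ gH (Nat.log 2 x) (hX (Nat.log 2 x) S h) *
      gH (Nat.log 2 x) (hX (Nat.log 2 x) S h)
    exact h4.trans (Nat.le_mul_of_pos_left _ h0)

theorem ok_machQ (eA eN eO ini B0 st bo x y S h : ℕ) :
    (machQ eA eN eO ini B0 st bo x y S h).Ok := by
  refine ⟨Nat.succ_pos _, ?_, ?_, ?_, ?_, ?_, ?_⟩
  · exact Nat.div_pos (sg_le (Nat.log 2 x) S h) (Nat.succ_pos _)
  · intro q
    exact Nat.mod_lt _ (by positivity)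
  · intro q v
    exact Nat.mod_lt _ (by positivity)
  · intro q v
    exact Nat.mod_lt _ (by positivity)
  · exact Nat.mod_lt _ (by positivity)
  · intro a
    exact Nat.mod_lt _ (by positivity)

theorem sv_le (eA eN eO ini B0 st bo x y S h : ℕ) :
    (machQ eA eN eO ini B0 st bo x y S h).sv ≤ CH x := by
  have h1 := (par_machQ eA eN eO ini B0 st bo x y S h).hh
  refine le_trans ?_ (CR_le_CH x)
  unfold Pool.Agent.Helper81.Tok2.Mach.sv
  rw [← pow_mul]
  refine pow_le_CR (h1.trans ?_)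
  have h2 := gH_le (Nat.log 2 x) (machQ eA eN eO ini B0 st bo x y S h).h
  have h3 := Pool.Agent.Helper69.Ram.gR_le (Nat.log 2 x)
  omega

variable {α : Type} [Ctx α]

theorem lsm_machQ (hnv : ∀ (m : Pool.Agent.Helper81.Tok2.Mach) (x : ℕ), m.Ok →
      Par (Nat.log 2 x) m → 2 ^ m.nv m.G ≤ CH x) {eA eN eO ini B0 st bo x y S h : α → ℕ}
    (heA : LS eA) (heN : LS eN) (heO : LS eO) (hini : LS ini) (hB0 : LS B0) (hst : LS st)
    (hbo : LS bo) (hx : LS x) (hy : LS y) (hS : LS S) (hh : LS h) :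
    Pool.Agent.Helper81.Tok2.LSM (fun z => machQ (eA z) (eN z) (eO z) (ini z) (B0 z) (st z)
      (bo z) (x z) (y z) (S z) (h z)) (fun z => CH (x z)) := by
  have hn : LS (fun z => Nat.log 2 (x z)) := LS.log2 hx
  have hH : LS (fun z => hX (Nat.log 2 (x z)) (S z) (h z)) := LS_hX hn hS hh
  have hg : LS (fun z => gH (Nat.log 2 (x z)) (hX (Nat.log 2 (x z)) (S z) (h z))) := LS_gH hn hH
  have hσ : LS (fun z => sg (Nat.log 2 (x z)) (S z) (h z)) := by
    unfold sg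
    exact LS.add (LS.min hS (LS.sub hg (LS.const 1))) (LS.const 1)
  have hT : LS (fun z => tl (Nat.log 2 (x z)) (S z) (h z)) := by
    unfold tl
    exact LS.div (LS.sub hσ (LS.const 11)) (LS.const 4)
  have hC : LS (fun z => CR (x z)) := Pool.Agent.Helper59.Ram.LS_CR hx
  have hCH : LS (fun z => CH (x z)) := by
    unfold CH
    exact (LS.add hx (LS.const 2)).pow_const 40000
  have hΛ : LS (fun z => LW (Nat.log 2 (x z))) := LS.LW hn
  have hβ : LS (fun z => 2 ^ (2 * ll (Nat.log 2 (x z)))) :=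
    LS.pow_of_le (f := fun _ => 2) (by fun_prop) (by fun_prop) hC
      fun z => Pool.Agent.Helper59.Ram.pow_ll_le (x z)
  have hβ0 : ∀ z, 0 < 2 ^ (2 * ll (Nat.log 2 (x z))) := fun z => by positivity
  have hb : ∀ z, (2 ^ (2 * ll (Nat.log 2 (x z)))) ^ LW (Nat.log 2 (x z)) ≤ CR (x z) :=
    fun z => (beta_pow_le (x z)).trans (Pool.Agent.Helper59.Ram.CM_le_CR (x z))
  have hb1 : ∀ z, 2 ^ sg (Nat.log 2 (x z)) (S z) (h z) ≤ CR (x z) := by
    intro z
    refine pow_le_CR ?_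
    have h1 := sg_le (Nat.log 2 (x z)) (S z) (h z)
    have h2 := gH_le (Nat.log 2 (x z)) (hX (Nat.log 2 (x z)) (S z) (h z))
    have h3 := Pool.Agent.Helper69.Ram.gR_le (Nat.log 2 (x z))
    omega
  have hb2 : ∀ z, 2 ^ (tl (Nat.log 2 (x z)) (S z) (h z) + 1) ≤ CR (x z) := fun z =>
    (Nat.pow_le_pow_right (by norm_num) (tl_le _ _ _)).trans (hb1 z)
  have hB : LS (fun z => 2 ^ (tl (Nat.log 2 (x z)) (S z) (h z) + 1)) :=
    LS.pow_of_le (f := fun _ => 2) (by fun_prop) (LS.add hT (LS.const 1)) hC hb2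
  have hP : LS (fun z => 2 ^ sg (Nat.log 2 (x z)) (S z) (h z)) :=
    LS.pow_of_le (f := fun _ => 2) (by fun_prop) hσ hC hb1
  -- functions of a further argument
  have hfn : ∀ {β : Type} [Ctx β] (π : β → α) (e : α → ℕ) (u : β → ℕ), LS π → LS e → LS u →
      LS (fun b => capN (tl (Nat.log 2 (x (π b))) (S (π b)) (h (π b)))
        (fnN (e (π b)) (tl (Nat.log 2 (x (π b))) (S (π b)) (h (π b)))
        (LW (Nat.log 2 (x (π b)))) (2 ^ (2 * ll (Nat.log 2 (x (π b))))) (CR (x (π b)))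
        (u b))) := by
    intro β _ π e u hπ he hu
    have h1 : LS (fun b => e (π b)) := LS.comp (g := e) he hπ
    have h2 : LS (fun b => tl (Nat.log 2 (x (π b))) (S (π b)) (h (π b))) :=
      LS.comp (g := fun z => tl (Nat.log 2 (x z)) (S z) (h z)) hT hπ
    have h3 : LS (fun b => LW (Nat.log 2 (x (π b)))) :=
      LS.comp (g := fun z => LW (Nat.log 2 (x z))) hΛ hπ
    have h4 : LS (fun b => 2 ^ (2 * ll (Nat.log 2 (x (π b))))) :=
      LS.comp (g := fun z => 2 ^ (2 * ll (Nat.log 2 (x z)))) hβ hπ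
    have h5 : LS (fun b => CR (x (π b))) := LS.comp (g := fun z => CR (x z)) hC hπ
    exact LS.capN h2 (LS.fnN h1 h2 h3 h4 h5 hu h5 (fun b => hβ0 (π b)) (fun b => hb (π b))
      (fun b => hb2 (π b)))
  have harg : LS (fun b : α × ℕ × ℕ × ℕ => argN (ini b.1) (B0 b.1) b.2.1 b.2.2.1 b.2.2.2) := by
    unfold argN
    have h1 : LS (fun b : α × ℕ × ℕ × ℕ => ini b.1) := LS.comp (g := ini) hini (by fun_prop)
    have h2 : LS (fun b : α × ℕ × ℕ × ℕ => B0 b.1) := LS.comp (g := B0) hB0 (by fun_prop)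
    fun_prop
  have hN := hfn (fun b : α × ℕ × ℕ × ℕ => b.1) eN
    (fun b => argN (ini b.1) (B0 b.1) b.2.1 b.2.2.1 b.2.2.2) (by fun_prop) heN harg
  have hO := hfn (fun b : α × ℕ × ℕ × ℕ => b.1) eO
    (fun b => argN (ini b.1) (B0 b.1) b.2.1 b.2.2.1 b.2.2.2) (by fun_prop) heO harg
  have hA := hfn (fun b : α × ℕ => b.1) eA (fun b => b.2) (by fun_prop) heA (by fun_prop)
  have hA' := hfn (fun b : α × ℕ × ℕ × ℕ => b.1) eA (fun b => b.2.1) (by fun_prop) heA
    (by fun_prop)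
  have hF : NF.IsLS (fun z => nf (eA z) (eN z) (eO z) (ini z) (B0 z)
      (tl (Nat.log 2 (x z)) (S z) (h z)) (LW (Nat.log 2 (x z)))
      (2 ^ (2 * ll (Nat.log 2 (x z)))) (CR (x z))) := by
    refine ⟨?_, ?_, ?_, ?_⟩
    · exact LS.sub hA (LS.pow_log hA)
    · exact LS.ifz (LS.mul hA' (LS.mul hN hO)) (LS.const 0)
        (LS.ifz (LS.sub hO (LS.const 1)) (LS.const 1)
          (LS.add (LS.const 2) (LS.mod hO (LS.const 2))))
    · exact hN
    · exact LS.div hO (LS.const 2)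
  refine ⟨hσ, hσ, LS.div hg hσ, hg, hH, ?_, ?_, ?_, ?_, ?_, hCH,
    fun z => ok_machQ _ _ _ _ _ _ _ _ _ _ _,
    fun z => hnv _ _ (ok_machQ _ _ _ _ _ _ _ _ _ _ _) (par_machQ _ _ _ _ _ _ _ _ _ _ _),
    fun z => sv_le _ _ _ _ _ _ _ _ _ _ _⟩
  · have hP' : LS (fun b : α × ℕ => 2 ^ sg (Nat.log 2 (x b.1)) (S b.1) (h b.1)) :=
      LS.comp (g := fun z => 2 ^ sg (Nat.log 2 (x z)) (S z) (h z)) hP (by fun_prop)
    exact LS.mod (ls_AA hF hB (π := fun b : α × ℕ => b.1) (by fun_prop) (X := fun b => b.2)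
      (by fun_prop)) hP'
  · have hP' : LS (fun b : α × ℕ × ℕ => 2 ^ sg (Nat.log 2 (x b.1)) (S b.1) (h b.1)) :=
      LS.comp (g := fun z => 2 ^ sg (Nat.log 2 (x z)) (S z) (h z)) hP (by fun_prop)
    exact LS.mod (ls_NN hF hB (π := fun b : α × ℕ × ℕ => b.1) (by fun_prop)
      (X := fun b => b.2.1) (v := fun b => b.2.2) (by fun_prop) (by fun_prop)) hP'
  · have hP' : LS (fun b : α × ℕ × ℕ => 2 ^ sg (Nat.log 2 (x b.1)) (S b.1) (h b.1)) :=
      LS.comp (g := fun z => 2 ^ sg (Nat.log 2 (x z)) (S z) (h z)) hP (by fun_prop)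
    exact LS.mod (ls_WW hF hB (π := fun b : α × ℕ × ℕ => b.1) (by fun_prop)
      (X := fun b => b.2.1) (v := fun b => b.2.2) (by fun_prop) (by fun_prop)) hP'
  · have h1 : LS (fun z => capN (tl (Nat.log 2 (x z)) (S z) (h z)) (st z)) := LS.capN hT hst
    have h2 : LS (fun z => capN (tl (Nat.log 2 (x z)) (S z) (h z)) (bo z)) := LS.capN hT hbo
    exact LS.mod (LS.ifz (LS.mul h1 h2) (LS.const 0) (APD.LS.mkX hB (LS.const 2) (LS.const 0)
      (LS.const 0) (LS.add h1 (LS.mul hB h2)) (LS.const 0))) hP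
  · have hP' : LS (fun b : α × ℕ => 2 ^ sg (Nat.log 2 (x b.1)) (S b.1) (h b.1)) :=
      LS.comp (g := fun z => 2 ^ sg (Nat.log 2 (x z)) (S z) (h z)) hP (by fun_prop)
    have hB' : LS (fun b : α × ℕ => 2 ^ (tl (Nat.log 2 (x b.1)) (S b.1) (h b.1) + 1)) :=
      LS.comp (g := fun z => 2 ^ (tl (Nat.log 2 (x z)) (S z) (h z) + 1)) hB (by fun_prop)
    have ha : LS (fun b : α × ℕ => b.2) := by fun_prop
    have hx' : LS (fun b : α × ℕ => x b.1) := by fun_prop
    have hy' : LS (fun b : α × ℕ => y b.1) := by fun_prop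
    have hl : LS (fun b : α × ℕ => lcN (x b.1) (y b.1) b.2) := by
      unfold lcN
      fun_prop
    exact LS.mod (LS.ifz (LS.lt01 ha hB') (LS.const 0) hl) hP'

end Pool.Agent.Helper20.APC
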