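import Pool.Agent.Helper20.APC.Num
import Pool.Agent.Helper20.APD.Mach
import Pool.Agent.Helper28.Few.Mach

set_option autoImplicit false

/-!
# The machine on numbers of the simulation with a table of calls
-/

namespace Pool.Agent.Helper20.APC

open Pool.Agent.Helper65.LinSpace Pool.Agent.Helper78.Mpc Pool.Agent.Helper28.Ram
open Pool.Agent.Helper28.Few (mcf chg chs chs_mono macro_sound macro_complete Absorb cf_succ
  conf_eq)
open Pool.Agent.Helper20.APD (NF NF.Ok NF.pd mkX kX phX lX sX pX kX_mkX phX_mkX lX_mkX sX_mkX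
  pX_mkX Val encC encP ValP encC_lt encC_mod encC_div encC_ge encC_inj encP_lt encP_some_pos
  kX_zero kX_one accN_01 upd_same mkX_lt)

/-- The machine. -/
def machB (F : NF) (B σ b g h q z : ℕ) (lc : ℕ → ℕ) : Pool.Agent.Helper81.Tok2.Mach where
  σ := σ
  a := σ
  b := b
  G := g
  h := h
  A X := AA F B X % 2 ^ σ
  N X v := NN F B X v % 2 ^ σ
  W X v := WW F B X v % 2 ^ σ
  q0 := ifz (q * z) 0 (mkX B 2 0 0 (encC B (q, z)) 0) % 2 ^ σ
  M0 a := ifz (lt01 a B) 0 (lc a) % 2 ^ σ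

theorem encS_lt {B : ℕ} (hB : 0 < B) {s : SS ℕ ℕ} (h : ValS B s) :
    encS B s < 72 * (B * B * (B * B)) := by
  have h0 : 0 < B * B * (B * B) := by positivity
  rcases s with _ | _ | ⟨c, p⟩ | ⟨p, v⟩
  · show 0 < _
    omega
  · show 1 < _
    omega
  · exact mkX_lt (by norm_num) (by norm_num) (by norm_num) (encC_lt h.1) (encP_lt hB h.2)
  · exact mkX_lt (by norm_num) (by norm_num) (by norm_num)
      (lt_of_lt_of_le h.1.2 (Nat.le_mul_of_pos_left _ hB)) (encP_lt hB h.2)

theorem encE_lt {B : ℕ} (hB : 0 < B) {e : Entry ℕ ℕ} (h : ValE B e) :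
    encE B e < 72 * (B * B * (B * B)) := by
  have h1 : B * B ≤ B * B * (B * B) := Nat.le_mul_of_pos_right _ (by positivity)
  have h2 : B ≤ B * B := Nat.le_mul_of_pos_left _ hB
  rcases e with _ | ⟨z, p⟩ | v
  · show 0 < _
    omega
  · show 1 + 4 * (z + B * encP B p) < _
    have h3 := encP_lt hB h.2
    have h4 : B * (encP B p + 1) ≤ B * (B * B) := Nat.mul_le_mul_left _ h3
    have h5 : B * (B * B) ≤ B * B * (B * B) := Nat.mul_le_mul_right _ h2
    have h6 := h.1.2
    rw [Nat.mul_add, mul_one] at h4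
    omega
  · show 2 + 4 * v < _
    have := h.2
    omega

/-- The state after the first of two steps. -/
theorem first_step {F : NF} {B : ℕ} (hF : F.Ok B) (hB : 0 < B) {lc : ℕ → ℕ}
    {x : ℕ × (ℕ → ℕ)} {s : SS ℕ ℕ × (ℕ × ℕ → Entry ℕ ℕ)} (h : Rel B lc x s) :
    AA F B x.1 < B ∧ (st1 F B x).1 < 72 * (B * B * (B * B)) ∧ (st1 F B x).2 = x.2 ∧
      (AA F B (st1 F B x).1 < B ∨ ∃ c, Val B c ∧ AA F B (st1 F B x).1 = encC B c) := by
  obtain ⟨X, M⟩ := x
  obtain ⟨s, T⟩ := s
  obtain ⟨h1, h2, h3, h4⟩ := h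
  simp only at h1 h2 h3 h4
  have h0 : 0 < B * B * (B * B) := by positivity
  have hA0 : AA F B 0 < B := by
    have e : AA F B 0 = F.ad (sX B 0 % B) ∨ AA F B 0 = 0 := by
      unfold AA
      right
      simp [phX, kX, eq01, ifz]
    rcases e with e | e
    · rw [e]
      exact hF.had _
    · rw [e]
      exact hB
  have hA1 : AA F B 1 < B := by
    have e : AA F B 1 = F.ad (sX B 1 % B) ∨ AA F B 1 = 0 := by
      unfold AA
      right
      simp [phX, kX, eq01, ifz]
    rcases e with e | e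
    · rw [e]
      exact hF.had _
    · rw [e]
      exact hB
  rcases s with _ | _ | ⟨c, p⟩ | ⟨p, v⟩
  · rw [h1]
    show AA F B 0 < B ∧ (st1 F B (0, M)).1 < _ ∧ (st1 F B (0, M)).2 = M ∧
      (AA F B (st1 F B (0, M)).1 < B ∨ _)
    rw [st1_halt]
    exact ⟨hA0, by show 0 < _; omega, rfl, Or.inl hA0⟩
  · rw [h1]
    show AA F B 1 < B ∧ (st1 F B (1, M)).1 < _ ∧ (st1 F B (1, M)).2 = M ∧
      (AA F B (st1 F B (1, M)).1 < B ∨ _)
    rw [st1_acc]
    exact ⟨hA1, by show 1 < _; omega, rfl, Or.inl hA1⟩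
  · obtain ⟨hc, hp⟩ := h2
    have hs := encC_lt hc
    have hX : X = mkX B 2 0 0 (encC B c) (encP B p) := h1
    have e1 : eq01 2 2 = 1 := rfl
    refine ⟨?_, ?_, ?_, ?_⟩
    · show AA F B X < B
      rw [hX]
      unfold AA
      rw [phX_mkX (by norm_num) (by norm_num), ifz_zero, kX_mkX (by norm_num), e1,
        ifz_ne one_ne_zero]
      exact hF.had _
    · rw [hX, st1_ph0 F B (Or.inl rfl) hs]
      exact mkX_lt (by norm_num) (by norm_num) (Nat.mod_lt _ (by norm_num)) hs (encP_lt hB hp)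
    · rw [hX, st1_ph0 F B (Or.inl rfl) hs]
    · rw [hX, st1_ph0 F B (Or.inl rfl) hs]
      set l := M (ifz (eq01 2 2) 0 (F.ad (encC B c % B))) % 9 with hl
      have hl9 : l < 9 := Nat.mod_lt _ (by norm_num)
      have e : AA F B (mkX B 2 1 l (encC B c) (encP B p)) =
          ifz (F.kd c.1 c.2 l - 2) 0 (F.nq c.1 c.2 l + B * F.nz c.1 c.2 l) := by
        unfold AA
        rw [phX_mkX (by norm_num) (by norm_num), ifz_ne one_ne_zero, kX_mkX (by norm_num), e1,
          ifz_ne one_ne_zero, sX_mkX (by norm_num) (by norm_num) hl9 hs,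
          lX_mkX (by norm_num) (by norm_num) hl9, encC_mod hc, encC_div hc]
      show AA F B (mkX B 2 1 l (encC B c) (encP B p)) < B ∨
        ∃ c', Val B c' ∧ AA F B (mkX B 2 1 l (encC B c) (encP B p)) = encC B c'
      rw [e]
      by_cases hk : F.kd c.1 c.2 l - 2 = 0
      · left
        rw [hk, ifz_zero]
        exact hB
      · right
        rw [ifz_ne hk]
        exact ⟨(F.nq c.1 c.2 l, F.nz c.1 c.2 l), ⟨hF.hnq _ _ _ (by omega),
          hF.hnz _ _ _ (by omega)⟩, rfl⟩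
  · obtain ⟨hv, hp⟩ := h2
    have hvB : v < B * B := lt_of_lt_of_le hv.2 (Nat.le_mul_of_pos_left _ hB)
    have hX : X = mkX B 3 0 0 v (encP B p) := h1
    have e1 : eq01 3 2 = 0 := rfl
    refine ⟨?_, ?_, ?_, ?_⟩
    · show AA F B X < B
      rw [hX]
      unfold AA
      rw [phX_mkX (by norm_num) (by norm_num), ifz_zero, kX_mkX (by norm_num), e1, ifz_zero]
      exact hB
    · rw [hX, st1_ph0 F B (Or.inr rfl) hvB]
      exact mkX_lt (by norm_num) (by norm_num) (Nat.mod_lt _ (by norm_num)) hvB (encP_lt hB hp)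
    · rw [hX, st1_ph0 F B (Or.inr rfl) hvB]
    · have e : AA F B (st1 F B (X, M)).1 = encP B p := by
        rw [hX, st1_ph0 F B (Or.inr rfl) hvB]
        show AA F B (mkX B 3 1 _ _ _) = _
        unfold AA
        rw [phX_mkX (by norm_num) (by norm_num), ifz_ne one_ne_zero, kX_mkX (by norm_num), e1,
          ifz_zero, pX_mkX (by norm_num) (by norm_num) (Nat.mod_lt _ (by norm_num)) hvB]
      rcases p with _ | c
      · left
        rw [e]
        exact hB
      · right
        exact ⟨c, hp, e⟩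

/-- The configuration of the machine on numbers after `t` steps. -/
def cfm (m : Pool.Agent.Helper81.Tok2.Mach) (t : ℕ) : ℕ × (ℕ → ℕ) :=
  cf m.A m.N m.W m.q0 m.M0 t

/-- One step of the machine. -/
def step1 (m : Pool.Agent.Helper81.Tok2.Mach) (x : ℕ × (ℕ → ℕ)) : ℕ × (ℕ → ℕ) :=
  (m.N x.1 (x.2 (m.A x.1)), Function.update x.2 (m.A x.1) (m.W x.1 (x.2 (m.A x.1))))

theorem cfm_succ (m : Pool.Agent.Helper81.Tok2.Mach) (t : ℕ) :
    cfm m (t + 1) = step1 m (cfm m t) := rfl

theorem step1_eq {F : NF} {B σ b g h q z : ℕ} {lc : ℕ → ℕ} {x : ℕ × (ℕ → ℕ)}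
    (h1 : AA F B x.1 < 2 ^ σ) (h2 : (st1 F B x).1 < 2 ^ σ)
    (h3 : (st1 F B x).2 (AA F B x.1) < 2 ^ σ) :
    step1 (machB F B σ b g h q z lc) x = st1 F B x := by
  have e1 : (machB F B σ b g h q z lc).A x.1 = AA F B x.1 := Nat.mod_eq_of_lt h1
  unfold step1
  rw [e1]
  have e2 : (machB F B σ b g h q z lc).N x.1 (x.2 (AA F B x.1)) = (st1 F B x).1 :=
    Nat.mod_eq_of_lt h2
  have e3 : (machB F B σ b g h q z lc).W x.1 (x.2 (AA F B x.1)) =
      WW F B x.1 (x.2 (AA F B x.1)) := by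
    refine Nat.mod_eq_of_lt ?_
    have : (st1 F B x).2 (AA F B x.1) = WW F B x.1 (x.2 (AA F B x.1)) := by
      unfold st1
      exact Function.update_self _ _ _
    rw [← this]
    exact h3
  rw [e2, e3]
  rfl

section

variable {F : NF} {B σ b g h q z : ℕ} {lc : ℕ → ℕ}

theorem two_steps (hF : F.Ok B) (hB : 0 < B) (hlc : ∀ i, lc i < 9)
    (hσ : 72 * (B * B * (B * B)) ≤ 2 ^ σ) {x : ℕ × (ℕ → ℕ)}
    {s : SS ℕ ℕ × (ℕ × ℕ → Entry ℕ ℕ)} (hr : Rel B lc x s) :
    (step1 (machB F B σ b g h q z lc) x = st1 F B x ∧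
      step1 (machB F B σ b g h q z lc) (st1 F B x) = st1 F B (st1 F B x)) ∧
    (machB F B σ b g h q z lc).A (st1 F B x).1 = AA F B (st1 F B x).1 := by
  obtain ⟨f1, f2, f3, f4⟩ := first_step hF hB hr
  have hr2 := rel_step hF hB hlc hr
  have hB1 : B ≤ B * B := Nat.le_mul_of_pos_left _ hB
  have hB2 : B * B ≤ B * B * (B * B) := Nat.le_mul_of_pos_right _ (by positivity)
  have hlt : ∀ i < B, x.2 i < 2 ^ σ := by
    intro i hi
    rw [hr.h4 i hi]
    have := hlc i
    omega
  have hA : AA F B (st1 F B x).1 < 2 ^ σ := by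
    rcases f4 with f4 | ⟨c, hc, f4⟩
    · omega
    · have := encC_lt hc
      omega
  refine ⟨⟨?_, ?_⟩, Nat.mod_eq_of_lt hA⟩
  · refine step1_eq (by omega) (by omega) ?_
    rw [f3]
    exact hlt _ f1
  · refine step1_eq hA ?_ ?_
    · rw [hr2.h1]
      have := encS_lt hB hr2.h2
      omega
    · rcases f4 with f4 | ⟨c, hc, f4⟩
      · rw [hr2.h4 _ f4]
        have := hlc (AA F B (st1 F B x).1)
        omega
      · rw [f4, (hr2.h3 c hc).1]
        have := encE_lt hB (hr2.h3 c hc).2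
        omega

theorem rel_cfm (hF : F.Ok B) (hB : 0 < B) (hlc : ∀ i, lc i < 9)
    (hσ : 72 * (B * B * (B * B)) ≤ 2 ^ σ) (hq : 0 < q ∧ q < B) (hz : 0 < z ∧ z < B) (k : ℕ) :
    Rel B lc (cfm (machB F B σ b g h q z lc) (2 * k))
      (srun (F.pd lc) k (.call (q, z) none, fun _ => .none)) := by
  induction k with
  | zero =>
    have hc : Val B (q, z) := ⟨hq, hz⟩
    have hqz : q * z ≠ 0 := (Nat.mul_pos hq.1 hz.1).ne'
    refine ⟨?_, ⟨hc, trivial⟩, ?_, ?_⟩
    · show ifz (q * z) 0 (mkX B 2 0 0 (encC B (q, z)) 0) % 2 ^ σ = mkX B 2 0 0 (encC B (q, z)) 0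
      rw [ifz_ne hqz]
      refine Nat.mod_eq_of_lt (lt_of_lt_of_le (mkX_lt (by norm_num) (by norm_num) (by norm_num)
        (encC_lt hc) (by positivity)) hσ)
    · intro c hc'
      refine ⟨?_, trivial⟩
      show ifz (lt01 (encC B c) B) 0 _ % 2 ^ σ = 0
      have := encC_ge hc'
      rw [lt01, if_neg (by omega), ifz_zero, Nat.zero_mod]
    · intro i hi
      show ifz (lt01 i B) 0 (lc i) % 2 ^ σ = lc i
      rw [lt01, if_pos hi, ifz_ne one_ne_zero]
      refine Nat.mod_eq_of_lt ?_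
      have h1 := hlc i
      have h2 : 0 < B * B * (B * B) := by positivity
      omega
  | succ k ih =>
    have e : 2 * (k + 1) = 2 * k + 1 + 1 := by ring
    obtain ⟨⟨t1, t2⟩, _⟩ := two_steps (b := b) (g := g) (h := h) (q := q) (z := z) hF hB hlc hσ ih
    rw [e, cfm_succ, cfm_succ, t1, t2, srun_add, srun_one]
    exact rel_step hF hB hlc ih

/-- The number of changes. -/
theorem chs_le (hF : F.Ok B) (hB : 0 < B) (hlc : ∀ i, lc i < 9)
    (hσ : 72 * (B * B * (B * B)) ≤ 2 ^ σ) (hq : 0 < q ∧ q < B) (hz : 0 < z ∧ z < B) (k : ℕ) :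
    chs (machB F B σ b g h q z lc).A (machB F B σ b g h q z lc).N
      (machB F B σ b g h q z lc).W (machB F B σ b g h q z lc).q0
      (machB F B σ b g h q z lc).M0 (2 * k) ≤
      sct (F.pd lc) k (.call (q, z) none, fun _ => .none) := by
  classical
  set m := machB F B σ b g h q z lc with hm
  induction k with
  | zero => exact le_of_eq rfl
  | succ k ih =>
    have hr := rel_cfm (b := b) (g := g) (h := h) hF hB hlc hσ hq hz k
    rw [← hm] at hr
    obtain ⟨⟨t1, t2⟩, t3⟩ := two_steps (b := b) (g := g) (h := h) (q := q) (z := z) hF hB hlc hσ hr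
    rw [← hm] at t1 t2 t3
    obtain ⟨f1, f2, f3, f4⟩ := first_step hF hB hr
    have hr2 := rel_step hF hB hlc hr
    have n1 : ¬chg m.A m.N m.W m.q0 m.M0 (2 * k) := by
      intro hc
      apply hc
      have e1 : (cfm m (2 * k + 1)).2 = (cfm m (2 * k)).2 := by
        rw [cfm_succ, t1, f3]
      have e2 : (cfm m (2 * k + 1)).2 (m.A (cfm m (2 * k)).1) =
          m.W (cfm m (2 * k)).1 ((cfm m (2 * k)).2 (m.A (cfm m (2 * k)).1)) := by
        rw [cfm_succ]
        exact Function.update_self _ _ _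
      rw [e1] at e2
      exact e2.symm
    have n2 : chg m.A m.N m.W m.q0 m.M0 (2 * k + 1) →
        (sstep (F.pd lc) (srun (F.pd lc) k (.call (q, z) none, fun _ => .none))).2 ≠
          (srun (F.pd lc) k (.call (q, z) none, fun _ => .none)).2 := by
      intro hc heq
      apply hc
      show m.W (cfm m (2 * k + 1)).1 ((cfm m (2 * k + 1)).2 (m.A (cfm m (2 * k + 1)).1)) =
        (cfm m (2 * k + 1)).2 (m.A (cfm m (2 * k + 1)).1)
      have e2 : (cfm m (2 * k + 1 + 1)).2 (m.A (cfm m (2 * k + 1)).1) =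
          m.W (cfm m (2 * k + 1)).1 ((cfm m (2 * k + 1)).2 (m.A (cfm m (2 * k + 1)).1)) := by
        rw [cfm_succ]
        exact Function.update_self _ _ _
      rw [← e2, cfm_succ m (2 * k + 1), cfm_succ, t1, t2, t3, f3]
      rcases f4 with f4 | ⟨c, hc', f4⟩
      · rw [hr2.h4 _ f4, hr.h4 _ f4]
      · rw [f4, (hr2.h3 c hc').1, (hr.h3 c hc').1, heq]
    have e : 2 * (k + 1) = 2 * k + 1 + 1 := by ring
    rw [e, sct_add]
    have e3 : chs m.A m.N m.W m.q0 m.M0 (2 * k + 1 + 1) ≤ chs m.A m.N m.W m.q0 m.M0 (2 * k) +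
        (if chg m.A m.N m.W m.q0 m.M0 (2 * k + 1) then 1 else 0) := by
      unfold chs
      rw [Finset.range_add_one, Finset.filter_insert, Finset.range_add_one, Finset.filter_insert,
        if_neg n1]
      split_ifs with hc
      · exact Finset.card_insert_le _ _
      · exact le_of_eq rfl
    have e4 : (if chg m.A m.N m.W m.q0 m.M0 (2 * k + 1) then 1 else 0) ≤
        sct (F.pd lc) 1 (srun (F.pd lc) k (.call (q, z) none, fun _ => .none)) := by
      split_ifs with hc
      · show 1 ≤ (if _ then 0 else 1) + 0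
        rw [if_neg (n2 hc)]
      · exact Nat.zero_le _
    omega

theorem content_lt (t i : ℕ) :
    (cfm (machB F B σ b g h q z lc) t).2 i < 2 ^ σ := by
  induction t with
  | zero => exact Nat.mod_lt _ (by positivity)
  | succ t ih =>
    rw [cfm_succ]
    by_cases hi : i = (machB F B σ b g h q z lc).A (cfm (machB F B σ b g h q z lc) t).1
    · have e : (step1 (machB F B σ b g h q z lc) (cfm (machB F B σ b g h q z lc) t)).2 i =
          (machB F B σ b g h q z lc).W (cfm (machB F B σ b g h q z lc) t).1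
            ((cfm (machB F B σ b g h q z lc) t).2
              ((machB F B σ b g h q z lc).A (cfm (machB F B σ b g h q z lc) t).1)) := by
        rw [hi]
        exact Function.update_self _ _ _
      rw [e]
      exact Nat.mod_lt _ (by positivity)
    · have e : (step1 (machB F B σ b g h q z lc) (cfm (machB F B σ b g h q z lc) t)).2 i =
          (cfm (machB F B σ b g h q z lc) t).2 i := Function.update_of_ne hi _ _
      rw [e]
      exact ih

/-- An accepting state is kept. -/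
theorem absorb (hσ : 1 < 2 ^ σ) : Absorb (machB F B σ b g h q z lc).A
    (machB F B σ b g h q z lc).N (machB F B σ b g h q z lc).W (machB F B σ b g h q z lc).q0
    (machB F B σ b g h q z lc).M0 (fun q => q = 1) := by
  intro t ht
  set m := machB F B σ b g h q z lc with hm
  change (cfm m t).1 = 1 at ht
  show step1 m (cfm m t) = cfm m t
  have hlt := content_lt (F := F) (B := B) (σ := σ) (b := b) (g := g) (h := h) (q := q) (z := z)
    (lc := lc) t
  rw [← hm] at hlt
  have e1 : ∀ v, m.N 1 v = 1 := by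
    intro v
    show NN F B 1 v % 2 ^ σ = 1
    unfold NN
    rw [kX_one, show (1 : ℕ) / 2 = 0 from rfl, ifz_zero]
    exact Nat.mod_eq_of_lt hσ
  have e2 : ∀ v < 2 ^ σ, m.W 1 v = v := by
    intro v hv
    show WW F B 1 v % 2 ^ σ = v
    unfold WW
    rw [kX_one, show (1 : ℕ) / 2 = 0 from rfl, ifz_zero]
    exact Nat.mod_eq_of_lt hv
  unfold step1
  rw [ht, e1, e2 _ (hlt _), Function.update_eq_self]
  exact Prod.ext ht.symm rfl

theorem encS_one {B : ℕ} {s : SS ℕ ℕ} (h : encS B s % 4 = 1) : s = .acc := by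
  rcases s with _ | _ | ⟨c, p⟩ | ⟨p, v⟩
  · exact absurd h (by show ¬ (0 % 4 = 1); norm_num)
  · rfl
  · have : kX (mkX B 2 0 0 (encC B c) (encP B p)) = 2 := kX_mkX (by norm_num)
    exact absurd (h.symm.trans this) (by norm_num)
  · have : kX (mkX B 3 0 0 v (encP B p)) = 3 := kX_mkX (by norm_num)
    exact absurd (h.symm.trans this) (by norm_num)

/-- Soundness. -/
theorem mach_sound (hF : F.Ok B) (hB : 0 < B) (hlc : ∀ i, lc i < 9)
    (hσ : 72 * (B * B * (B * B)) ≤ 2 ^ σ) (hq : 0 < q ∧ q < B) (hz : 0 < z ∧ z < B) (T : ℕ)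
    (hT : ((machB F B σ b g h q z lc).conf T).1 % 4 = 1) :
    ∃ t, (F.pd lc).acc ((F.pd lc).run t (q, [z])).1 := by
  have key : ∀ k, (cfm (machB F B σ b g h q z lc) (2 * k)).1 % 4 = 1 →
      ∃ t, (F.pd lc).acc ((F.pd lc).run t (q, [z])).1 := by
    intro k hk
    have hr := rel_cfm (b := b) (g := g) (h := h) hF hB hlc hσ hq hz k
    rw [hr.h1] at hk
    have hs := encS_one hk
    refine sound (F.pd lc) q z k (srun (F.pd lc) k (.call (q, z) none, fun _ => .none)).2 ?_
    exact Prod.ext hs rfl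
  rw [conf_eq] at hT
  obtain ⟨t, ht⟩ := macro_sound (A := (machB F B σ b g h q z lc).A)
    (N := (machB F B σ b g h q z lc).N) (W := (machB F B σ b g h q z lc).W)
    (q := (machB F B σ b g h q z lc).q0) (M := (machB F B σ b g h q z lc).M0)
    (machB F B σ b g h q z lc).h T
  rw [ht] at hT
  change (cfm (machB F B σ b g h q z lc) t).1 % 4 = 1 at hT
  rcases Nat.even_or_odd' t with ⟨k, hk | hk⟩
  · rw [hk] at hT
    exact key k hT
  · refine key k ?_
    have hr := rel_cfm (b := b) (g := g) (h := h) hF hB hlc hσ hq hz k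
    rw [hk, cfm_succ, (two_steps hF hB hlc hσ hr).1.1] at hT
    set x := cfm (machB F B σ b g h q z lc) (2 * k) with hx
    obtain ⟨X, M⟩ := x
    obtain ⟨h1, h2, h3, h4⟩ := hr
    simp only at h1 h2 h3 h4
    rw [h1] at hT ⊢
    generalize (srun (F.pd lc) k (.call (q, z) none, fun _ => .none)).1 = s at *
    rcases s with _ | _ | ⟨c, p⟩ | ⟨p, v⟩
    · rw [show encS B SS.halt = 0 from rfl, st1_halt] at hT
      exact absurd hT (by norm_num)
    · rfl
    · rw [show encS B (.call c p) = mkX B 2 0 0 (encC B c) (encP B p) from rfl,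
        st1_ph0 F B (Or.inl rfl) (encC_lt h2.1)] at hT
      have : kX (mkX B 2 1 (M (ifz (eq01 2 2) 0 (F.ad (encC B c % B))) % 9) (encC B c)
        (encP B p)) = 2 := kX_mkX (by norm_num)
      exact absurd (hT.symm.trans this) (by norm_num)
    · rw [show encS B (.ret p v) = mkX B 3 0 0 v (encP B p) from rfl,
        st1_ph0 F B (Or.inr rfl) (lt_of_lt_of_le h2.1.2 (Nat.le_mul_of_pos_left _ hB))] at hT
      have : kX (mkX B 3 1 (M (ifz (eq01 3 2) 0 (F.ad (v % B))) % 9) v (encP B p)) = 3 :=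
        kX_mkX (by norm_num)
      exact absurd (hT.symm.trans this) (by norm_num)

/-- Completeness. -/
theorem mach_complete (hF : F.Ok B) (hB : 0 < B) (hlc : ∀ i, lc i < 9)
    (hσ : 72 * (B * B * (B * B)) ≤ 2 ^ σ) (hq : 0 < q ∧ q < B) (hz : 0 < z ∧ z < B)
    (V C : Finset (ℕ × ℕ)) (t : ℕ)
    (h1 : ∀ τ < t, ¬ (F.pd lc).acc ((F.pd lc).run τ (q, [z])).1)
    (h2 : ∀ τ < t, ∀ z' st', ((F.pd lc).run τ (q, [z])).2 = z' :: st' →
      (((F.pd lc).run τ (q, [z])).1, z') ∈ V)
    (hc : ∀ τ < t, ∀ z' st' q'' z'', ((F.pd lc).run τ (q, [z])).2 = z' :: st' →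
      (F.pd lc).mv ((F.pd lc).run τ (q, [z])).1 z' = .push q'' z'' → (q'', z'') ∈ C)
    (h3 : (F.pd lc).acc ((F.pd lc).run t (q, [z])).1) (hV : 4 * V.card + 4 ≤ 2 ^ h) (T : ℕ)
    (hT : 4 * C.card + 1 ≤ T) :
    ((machB F B σ b g h q z lc).conf T).1 = 1 := by
  obtain ⟨k, M, hk, hkb, hks⟩ := complete (F.pd lc) V C q z t h1 h2 hc h3
  have hr := (rel_cfm (b := b) (g := g) (h := h) hF hB hlc hσ hq hz k).h1
  rw [hk] at hr
  have h0 : 0 < B * B * (B * B) := by positivity
  have hch := chs_le (b := b) (g := g) (h := h) hF hB hlc hσ hq hz k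
  rw [conf_eq]
  refine macro_complete (absorb (by omega)) (r := 2 * k) (x := 2 * C.card) hr
    (hch.trans hks) (Or.inl ?_) T (by omega)
  show 2 * k ≤ 2 ^ h * (2 * C.card + 1)
  calc 2 * k ≤ 2 * ((2 * V.card + 2) * (C.card + 1)) := Nat.mul_le_mul_left _ hkb
    _ = (4 * V.card + 4) * (C.card + 1) := by ring
    _ ≤ 2 ^ h * (2 * C.card + 1) := Nat.mul_le_mul hV (by omega)

end

end Pool.Agent.Helper20.APC
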