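import Pool.Agent.Helper20.APC.Fam
import Pool.Agent.Helper20.APC.Defs
import Pool.Agent.Helper20.APD.Main
import Pool.Agent.Helper28.Gen.Main
import Pool.Agent.Helper28.Few.Final

set_option autoImplicit false

/-!
# Auxiliary pushdown machines with few calls are weaker than linear space
-/

namespace Pool.Agent.Helper20.APC

open Pool.Agent.Helper65.LinSpace Pool.Agent.Helper78.Mpc Pool.Agent.Helper28.Ram
  Pool.Agent.Helper11.Ram Finset Filter
open Pool.Agent.Helper28.Few (hX gH_pos gH_le hX_mul_le hX_eq CR_le_CH LS_gH LS_hX Sim ev_few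
  conf_eq macro_sound)
open Pool.Agent.Helper81.Tok2 (gH CH Par)
open Pool.Agent.Helper20.APD (PDM store NF NF.Ok NF.pd PD pdL nf nf_ok lcN lcN_lt run_sound
  run_complete exists_V exists_len one_le_of_accepts)

/-- The machine with the code `e`. -/
def machE (e x y S h : ℕ) : Pool.Agent.Helper81.Tok2.Mach :=
  machQ (Nat.unpair e).1 (Nat.unpair (Nat.unpair e).2).1
    (Nat.unpair (Nat.unpair (Nat.unpair e).2).2).1
    (Nat.unpair (Nat.unpair (Nat.unpair (Nat.unpair e).2).2).2).1
    (Nat.unpair (Nat.unpair (Nat.unpair (Nat.unpair (Nat.unpair e).2).2).2).2).1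
    (Nat.unpair (Nat.unpair (Nat.unpair (Nat.unpair (Nat.unpair (Nat.unpair e).2).2).2).2).2).1
    (Nat.unpair (Nat.unpair (Nat.unpair (Nat.unpair (Nat.unpair (Nat.unpair e).2).2).2).2).2).2
    x y S h

/-- Acceptance in the simulation. -/
noncomputable def accQ (P : Sim) (e x y T : ℕ) : ℕ :=
  lt01 10 (sg (Nat.log 2 x) (T / (Nat.log 2 x + 2)) (T % (Nat.log 2 x + 2))) *
    eq01 (P.sim (Nat.log 2 x) (machE e x y (T / (Nat.log 2 x + 2)) (T % (Nat.log 2 x + 2)))) 1

/-- The number of codes of bounds. -/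
def NQ (x : ℕ) : ℕ := gR (Nat.log 2 x) * (Nat.log 2 x + 2)

theorem LS_NQ : LS NQ := by
  unfold NQ
  have h : LS (fun x => Nat.log 2 x) := by fun_prop
  exact LS.mul (Pool.Agent.Helper59.Ram.LS_gR h) (LS.add h (LS.const 2))

theorem LS_accQ (P : Sim) : LS (fun z : ℕ × ℕ × ℕ × ℕ => accQ P z.1 z.2.1 z.2.2.1 z.2.2.2) := by
  have hx : LS (fun z : ℕ × ℕ × ℕ × ℕ => z.2.1) := by fun_prop
  have hn : LS (fun z : ℕ × ℕ × ℕ × ℕ => Nat.log 2 z.2.1) := by fun_prop
  have hS : LS (fun z : ℕ × ℕ × ℕ × ℕ => z.2.2.2 / (Nat.log 2 z.2.1 + 2)) := by fun_prop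
  have hh : LS (fun z : ℕ × ℕ × ℕ × ℕ => z.2.2.2 % (Nat.log 2 z.2.1 + 2)) := by fun_prop
  have hM : Pool.Agent.Helper81.Tok2.LSM (fun z : ℕ × ℕ × ℕ × ℕ => machE z.1 z.2.1 z.2.2.1
      (z.2.2.2 / (Nat.log 2 z.2.1 + 2)) (z.2.2.2 % (Nat.log 2 z.2.1 + 2)))
      (fun z => CH z.2.1) := by
    unfold machE
    exact lsm_machQ (fun m x h1 h2 => P.nv m x h1 h2) (by fun_prop) (by fun_prop) (by fun_prop)
      (by fun_prop) (by fun_prop) (by fun_prop) (by fun_prop) (by fun_prop) (by fun_prop) hS hh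
  have h := P.ls hx hM (fun z => par_machQ _ _ _ _ _ _ _ _ _ _ _)
  have hg : LS (fun z : ℕ × ℕ × ℕ × ℕ => sg (Nat.log 2 z.2.1)
      (z.2.2.2 / (Nat.log 2 z.2.1 + 2)) (z.2.2.2 % (Nat.log 2 z.2.1 + 2))) := by
    unfold sg
    exact LS.add (LS.min hS (LS.sub (LS_gH hn (LS_hX hn hS hh)) (LS.const 1))) (LS.const 1)
  unfold accQ
  exact LS.mul (LS.lt01 (LS.const 10) hg) (LS.eq01 h (LS.const 1))

/-- The state `0` is kept. -/
theorem zero_keep {F : NF} {B σ b g h q z : ℕ} {lc : ℕ → ℕ} (h0 : q * z = 0) (T : ℕ) :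
    ((machB F B σ b g h q z lc).conf T).1 = 0 := by
  rw [conf_eq]
  obtain ⟨t, ht⟩ := macro_sound (A := (machB F B σ b g h q z lc).A)
    (N := (machB F B σ b g h q z lc).N) (W := (machB F B σ b g h q z lc).W)
    (q := (machB F B σ b g h q z lc).q0) (M := (machB F B σ b g h q z lc).M0)
    (machB F B σ b g h q z lc).h T
  rw [ht]
  change (cfm (machB F B σ b g h q z lc) t).1 = 0
  clear ht
  induction t with
  | zero =>
    show ifz (q * z) 0 _ % 2 ^ σ = 0
    rw [h0, ifz_zero, Nat.zero_mod]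
  | succ t ih =>
    rw [cfm_succ]
    show NN F B (cfm (machB F B σ b g h q z lc) t).1 _ % 2 ^ σ = 0
    rw [ih]
    unfold NN
    rw [show Pool.Agent.Helper20.APD.kX 0 = 0 from rfl, show (0 : ℕ) / 2 = 0 from rfl, ifz_zero,
      Nat.zero_mod]

theorem calls_finite (A : PDM) (w y : List Bool) (t : ℕ) : (A.calls w y t).Finite := by
  refine ((Set.finite_Iio t).image
    (fun τ => ((A.conf w y (τ + 1)).1, (A.conf w y (τ + 1)).2.headD []))).subset ?_
  rintro ⟨q, z⟩ ⟨τ, hτ, z', st, _, h⟩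
  refine ⟨τ, hτ, ?_⟩
  show ((A.conf w y (τ + 1)).1, (A.conf w y (τ + 1)).2.headD []) = (q, z)
  rw [h]
  rfl

/-- The numbers of the calls. -/
theorem exists_C (A : PDM) (w y : List Bool) (t : ℕ) : ∃ C : Finset (ℕ × ℕ),
    C.card ≤ (A.calls w y t).ncard ∧ ∀ x ∈ A.calls w y t, (num x.1, num x.2) ∈ C := by
  classical
  have hfin := calls_finite A w y t
  refine ⟨hfin.toFinset.image (fun x => (num x.1, num x.2)), ?_, fun x hx => ?_⟩
  · refine Finset.card_image_le.trans ?_
    rw [Set.ncard_eq_toFinset_card _ hfin]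
  · exact Finset.mem_image.2 ⟨x, hfin.mem_toFinset.2 hx, rfl⟩

/-- Every machine has a code. -/
theorem exists_accQ (P : Sim) (A : PDM) : ∃ e n₀ : ℕ, ∀ w y : List Bool, n₀ ≤ w.length →
    (∀ T < NQ (num w), accQ P e (num w) (num y) T ≠ 0 → ∃ t, A.AcceptsAt w y t) ∧
    ∀ t s x h, (4 * s + 14 + 2) * (h + 3) ≤ gH w.length (h + 3) →
      4 * s + 14 < gH w.length (h + 3) →
      2 * (2 * x) + 1 ≤ gH w.length (h + 3) * (gH w.length (h + 3) *
        (gH w.length (h + 3) / (4 * s + 14 + 1))) →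
      (A.calls w y t).ncard ≤ x → (A.surf w y t).ncard ≤ 2 ^ h →
      A.Fits w y t s → A.AcceptsAt w y t →
      ∃ T < NQ (num w), accQ P e (num w) (num y) T ≠ 0 := by
  obtain ⟨eA, cA, hA⟩ := fnN_spec A.addr_lin
  obtain ⟨eN, cN, hN⟩ := fnN_spec A.next_lin
  obtain ⟨eO, cO, hO⟩ := fnN_spec A.act_lin
  obtain ⟨B0, ini, hini⟩ := exists_ini A.read
  obtain ⟨R, hR⟩ := exists_len A.read
  obtain ⟨n₀, hn₀⟩ := eventually_atTop.1 (parts.PAR4 ((cA + cN + cO + 1) * (R + 1)))
  refine ⟨Nat.pair eA (Nat.pair eN (Nat.pair eO (Nat.pair ini (Nat.pair B0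
    (Nat.pair (num A.start) (num A.bottom)))))), n₀, fun w y hw => ?_⟩
  have hlog : Nat.log 2 (num w) = w.length := Pool.Agent.Helper65.LinSpace.log_num w
  set e := Nat.pair eA (Nat.pair eN (Nat.pair eO (Nat.pair ini (Nat.pair B0
    (Nat.pair (num A.start) (num A.bottom)))))) with he
  have hNQ : NQ (num w) = gR w.length * (w.length + 2) := by
    unfold NQ
    rw [hlog]
  -- the machine
  have hmach : ∀ S h, machE e (num w) (num y) S h = machQ eA eN eO ini B0 (num A.start)
      (num A.bottom) (num w) (num y) S h := by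
    intro S h
    unfold machE
    rw [he]
    simp only [Nat.unpair_pair]
  have hacc : ∀ S h, h < w.length + 2 → accQ P e (num w) (num y) (S * (w.length + 2) + h) =
      lt01 10 (sg w.length S h) * eq01 (((machB
        (nf eA eN eO ini B0 (tl w.length S h) (LW w.length) (2 ^ (2 * ll w.length)) (CR (num w)))
        (2 ^ (tl w.length S h + 1)) (sg w.length S h)
        (gH w.length (hX w.length S h) / sg w.length S h)
        (gH w.length (hX w.length S h)) (hX w.length S h)
        (capN (tl w.length S h) (num A.start)) (capN (tl w.length S h) (num A.bottom))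
        (lcN (num w) (num y))).conf
        (gH w.length (hX w.length S h) * (gH w.length (hX w.length S h) *
          (gH w.length (hX w.length S h) / sg w.length S h)))).1) 1 := by
    intro S h hh
    have e1 : (S * (w.length + 2) + h) / (w.length + 2) = S := by
      rw [mul_comm, Nat.mul_add_div (by omega), Nat.div_eq_of_lt hh, add_zero]
    have e2 : (S * (w.length + 2) + h) % (w.length + 2) = h := by
      rw [mul_comm, Nat.mul_add_mod, Nat.mod_eq_of_lt hh]
    unfold accQ
    rw [hlog, e1, e2, hmach]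
    have h0 := P.eq _ w.length (ok_machQ eA eN eO ini B0 (num A.start) (num A.bottom) (num w)
      (num y) S h) (by
        have := par_machQ eA eN eO ini B0 (num A.start) (num A.bottom) (num w) (num y) S h
        rwa [hlog] at this)
    rw [h0]
    unfold machQ
    rw [hlog]
    rfl
  have hcond : ∀ σ, 11 ≤ σ →
      72 * (2 ^ ((σ - 11) / 4 + 1) * 2 ^ ((σ - 11) / 4 + 1) *
        (2 ^ ((σ - 11) / 4 + 1) * 2 ^ ((σ - 11) / 4 + 1))) ≤ 2 ^ σ := by
    intro σ hσ
    set T := (σ - 11) / 4 with hT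
    have h1 : 2 ^ (T + 1) * 2 ^ (T + 1) * (2 ^ (T + 1) * 2 ^ (T + 1)) = 2 ^ (4 * T + 4) := by
      rw [← pow_add, ← pow_add]
      congr 1
      ring
    rw [h1]
    calc 72 * 2 ^ (4 * T + 4) ≤ 2 ^ 7 * 2 ^ (4 * T + 4) := Nat.mul_le_mul_right _ (by norm_num)
      _ = 2 ^ (4 * T + 11) := by
        rw [← pow_add]
        congr 1
        ring
      _ ≤ 2 ^ σ := Nat.pow_le_pow_right (by norm_num) (by omega)
  have hgood : ∀ σ, 11 ≤ σ → σ ≤ gR w.length → ∀ (f : List Bool → List Bool) (e' c' : ℕ),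
      c' ≤ cA + cN + cO →
      (∀ (w : List Bool) (S Λ β B : ℕ), c' * (S + w.length + 2) ≤ Λ →
        c' + Λ + S + w.length + 1 ≤ β → 2 ^ (S + 1) ≤ B →
        fnN e' S Λ β B (num w) = if (f w).length ≤ S then num (f w) else 0) →
      Good f e' ((σ - 11) / 4) (LW w.length) (2 ^ (2 * ll w.length)) (CR (num w))
        (4 * ((σ - 11) / 4) + 2 + R) := by
    intro σ hσ11 hσ f e' c' hc' hf u hu
    obtain ⟨h1, h2, h3⟩ := hn₀ w.length hw (σ - 1) (by omega)
    have h4 : c' * (R + 1) ≤ (cA + cN + cO + 1) * (R + 1) :=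
      Nat.mul_le_mul_right _ (by omega)
    refine hf u _ _ _ _ ?_ ?_ ?_
    · refine le_trans ?_ h1
      calc c' * ((σ - 11) / 4 + u.length + 2) ≤ c' * ((R + 1) * (4 * (σ - 1) + 4)) := by
            refine Nat.mul_le_mul_left _ ?_
            have : R ≤ R * (4 * (σ - 1) + 4) := Nat.le_mul_of_pos_right _ (by omega)
            rw [add_mul, one_mul]
            omega
        _ = c' * (R + 1) * (4 * (σ - 1) + 4) := by ring
        _ ≤ _ := Nat.mul_le_mul_right _ h4
    · have h5 : c' + R ≤ (cA + cN + cO + 1) * (R + 1) := by nlinarith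
      omega
    · refine (Nat.pow_le_pow_right (by norm_num) ?_).trans (h3 (num w) hlog)
      omega
  have hB0 : ∀ T : ℕ, 0 < 2 ^ (T + 1) := fun T => by positivity
  constructor
  · intro T hT hne
    have hT2 : T = (T / (w.length + 2)) * (w.length + 2) + T % (w.length + 2) := by
      rw [mul_comm]
      exact (Nat.div_add_mod T (w.length + 2)).symm
    rw [hT2, hacc _ _ (Nat.mod_lt _ (by omega))] at hne
    generalize T / (w.length + 2) = S at hne
    generalize T % (w.length + 2) = h at hne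
    have h1 : 11 ≤ sg w.length S h := by
      by_contra hc
      apply hne
      rw [lt01, if_neg (by omega), zero_mul]
    have h2 : sg w.length S h ≤ gR w.length := (sg_le _ _ _).trans (gH_le _ _)
    have htl : tl w.length S h = (sg w.length S h - 11) / 4 := rfl
    rw [htl] at hne
    generalize sg w.length S h = σ at *
    generalize hX w.length S h = k at *
    generalize gH w.length k = g at *
    have hacc1 : ((machB
        (nf eA eN eO ini B0 ((σ - 11) / 4) (LW w.length) (2 ^ (2 * ll w.length)) (CR (num w)))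
        (2 ^ ((σ - 11) / 4 + 1)) σ (g / σ) g k
        (capN ((σ - 11) / 4) (num A.start)) (capN ((σ - 11) / 4) (num A.bottom))
        (lcN (num w) (num y))).conf (g * (g * (g / σ)))).1 = 1 := by
      by_contra hc
      apply hne
      rw [eq01, if_neg hc, mul_zero]
    have hne0 : capN ((σ - 11) / 4) (num A.start) * capN ((σ - 11) / 4) (num A.bottom) ≠ 0 := by
      intro h0
      rw [zero_keep h0] at hacc1
      omega
    have hs := left_ne_zero_of_mul hne0
    have hb := right_ne_zero_of_mul hne0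
    have hs' := capN_num_le hs
    have hb' := capN_num_le hb
    rw [capN_num hs', capN_num hb'] at hacc1
    obtain ⟨t, ht⟩ := mach_sound (nf_ok _ _ _ _ _ _ _ _ _) (hB0 _) (lcN_lt _ _)
      (hcond σ h1) ⟨Pool.Agent.Helper65.LinSpace.num_pos _, by
        have := capN_lt ((σ - 11) / 4) (num A.start)
        rwa [capN_num hs'] at this⟩ ⟨Pool.Agent.Helper65.LinSpace.num_pos _, by
        have := capN_lt ((σ - 11) / 4) (num A.bottom)
        rwa [capN_num hb'] at this⟩ _ (by rw [hacc1])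
    obtain ⟨t', h4, h5, h6⟩ := run_sound (w := w) (y := y)
      (hgood σ h1 h2 A.addr eA cA (by omega) hA) (hgood σ h1 h2 A.next eN cN (by omega) hN)
      (hgood σ h1 h2 A.act eO cO (by omega) hO) hini hR hs' hb' t
    refine ⟨t', ?_⟩
    rw [h6] at ht
    exact (accN_num _).1 ht
  · intro t s x h q1 q2 q3 hx hh hfit hacc1
    have hgR := gH_le w.length (h + 3)
    have hgn := Pool.Agent.Helper69.Ram.gR_le w.length
    have hhn : h + 3 < w.length + 2 := by
      have : h + 3 ≤ (4 * s + 14 + 2) * (h + 3) := Nat.le_mul_of_pos_left _ (by omega)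
      omega
    refine ⟨(4 * s + 14) * (w.length + 2) + (h + 3), ?_, ?_⟩
    · rw [hNQ]
      calc (4 * s + 14) * (w.length + 2) + (h + 3)
          < (4 * s + 14) * (w.length + 2) + (w.length + 2) := by omega
        _ = (4 * s + 14 + 1) * (w.length + 2) := by ring
        _ ≤ _ := Nat.mul_le_mul_right _ (by omega)
    · rw [hacc _ _ hhn]
      have eh : hX w.length (4 * s + 14) (h + 3) = h + 3 := hX_eq q1
      have es : sg w.length (4 * s + 14) (h + 3) = 4 * s + 15 := by
        unfold sg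
        rw [eh]
        omega
      have et : tl w.length (4 * s + 14) (h + 3) = s + 1 := by
        unfold tl
        rw [es]
        omega
      rw [eh, es, et]
      have h1 : lt01 10 (4 * s + 15) = 1 := by rw [lt01, if_pos (by omega)]
      rw [h1, one_mul]
      have hcond' := hcond (4 * s + 15) (by omega)
      have hgood' := hgood (4 * s + 15) (by omega) (by omega)
      have hT : (4 * s + 15 - 11) / 4 = s + 1 := by omega
      rw [hT] at hcond' hgood'
      have f0 := hfit 0 (Nat.zero_le _)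
      have hs' : A.start.length ≤ s + 1 := by
        have : A.start.length ≤ s := f0.1
        omega
      have hb' : A.bottom.length ≤ s + 1 := by
        have : A.bottom.length ≤ s := f0.2.2 A.bottom (by
          show A.bottom ∈ [A.bottom]
          simp)
        omega
      rw [capN_num hs', capN_num hb']
      classical
      have hex : ∃ t, A.AcceptsAt w y t := ⟨t, hacc1⟩
      have hle : Nat.find hex ≤ t := Nat.find_min' hex hacc1
      obtain ⟨V, hV, hV2⟩ := exists_V A w y t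
      obtain ⟨Cc, hC, hC2⟩ := exists_C A w y t
      have hrun := run_complete (w := w) (y := y) (hgood' A.addr eA cA (by omega) hA)
        (hgood' A.next eN cN (by omega) hN) (hgood' A.act eO cO (by omega) hO) hini hR hfit
        le_rfl
      have hVh : 4 * V.card + 4 ≤ 2 ^ (h + 3) := by
        have h2 : V.card ≤ 2 ^ h := hV.trans hh
        have h3 : 2 ^ (h + 3) = 8 * 2 ^ h := by rw [pow_add]; ring
        have h4 : 0 < 2 ^ h := by positivity
        omega
      have := mach_complete (b := gH w.length (h + 3) / (4 * s + 15))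
        (g := gH w.length (h + 3)) (h := h + 3)
        (nf_ok eA eN eO ini B0 (s + 1) (LW w.length) (2 ^ (2 * ll w.length)) (CR (num w)))
        (hB0 _) (lcN_lt (num w) (num y)) hcond' (q := num A.start) (z := num A.bottom)
        ⟨Pool.Agent.Helper65.LinSpace.num_pos _, by
          have := capN_lt (s + 1) (num A.start)
          rwa [capN_num hs'] at this⟩ ⟨Pool.Agent.Helper65.LinSpace.num_pos _, by
          have := capN_lt (s + 1) (num A.bottom)
          rwa [capN_num hb'] at this⟩ V Cc (Nat.find hex) ?_ ?_ ?_ ?_ hVh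
        (gH w.length (h + 3) * (gH w.length (h + 3) * (gH w.length (h + 3) / (4 * s + 15))))
        (by
          have h5 : Cc.card ≤ x := hC.trans hx
          have e15 : 4 * s + 14 + 1 = 4 * s + 15 := by ring
          rw [e15] at q3
          omega)
      · rw [this]
        exact one_ne_zero
      · intro τ hτ h
        rw [hrun τ (by omega)] at h
        exact Nat.find_min hex hτ ((accN_num _).1 h)
      · intro τ hτ z' st' h
        rw [hrun τ (by omega)] at h ⊢
        rcases hst : (A.conf w y τ).2 with _ | ⟨z, st⟩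
        · rw [hst] at h
          exact absurd h (by simp)
        · rw [hst] at h
          have hz : num z = z' := by
            simp only [List.map_cons, List.cons.injEq] at h
            exact h.1
          rw [← hz]
          exact hV2 ((A.conf w y τ).1, z) ⟨τ, by omega, st, Prod.ext rfl hst⟩
      · intro τ hτ z' st' q'' z'' h hmv
        have e1 := hrun τ (by omega)
        have e2 := hrun (τ + 1) (by omega)
        rw [PD.run_add, PD.run_one, e1] at e2
        rw [e1] at h hmv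
        rcases hst : (A.conf w y τ).2 with _ | ⟨z, st⟩
        · rw [hst] at h
          exact absurd h (by simp)
        · rw [hst] at h e2
          simp only [List.map_cons, List.cons.injEq] at h
          obtain ⟨hz, hst'⟩ := h
          simp only [List.map_cons, PD.step] at e2
          rw [hz] at e2
          simp only at hmv
          rw [hmv] at e2
          simp only [Prod.mk.injEq] at e2
          obtain ⟨e3, e4⟩ := e2
          rcases hst2 : (A.conf w y (τ + 1)).2 with _ | ⟨z2, _ | ⟨z3, st3⟩⟩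
          · rw [hst2] at e4
            exact absurd e4 (by simp)
          · rw [hst2] at e4
            exact absurd e4 (by simp)
          · rw [hst2] at e4
            simp only [List.map_cons, List.cons.injEq] at e4
            obtain ⟨e5, e6, e7⟩ := e4
            rw [e3, e5]
            have hinj := Pool.Agent.Helper78.Avg.num_injective
            have e8 : z3 = z := hinj (by rw [← e6, hz])
            have e9 : st3 = st := List.map_injective_iff.2 hinj e7.symm
            refine hC2 ((A.conf w y (τ + 1)).1, z2) ⟨τ, by omega, z, st, hst, ?_⟩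
            refine Prod.ext rfl ?_
            rw [hst2, e8, e9]
      · rw [hrun _ hle]
        exact (accN_num _).2 (Nat.find_spec hex)

/-- The bounds. -/
theorem ev_apc (C : ℝ) : ∀ᶠ n : ℕ in atTop, ∀ x s h : ℕ, 1 ≤ s →
    (x : ℝ) * s * ((h : ℝ) + ((Nat.log 2 n : ℝ) + 1)) ^ 2 ≤ C * ((n : ℝ) + 1) ^ ((3 : ℝ) / 2) →
    (s : ℝ) * ((h : ℝ) + 1) * ((h : ℝ) + ((Nat.log 2 n : ℝ) + 1)) ≤
      C * ((n : ℝ) + 1) ^ ((1 : ℝ) / 2) →
    (4 * s + 14 + 2) * (h + 3) ≤ gH n (h + 3) ∧ 4 * s + 14 < gH n (h + 3) ∧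
      2 * (2 * x) + 1 ≤ gH n (h + 3) * (gH n (h + 3) * (gH n (h + 3) / (4 * s + 14 + 1))) := by
  filter_upwards [ev_few (576 * |C|)] with n hn x s h hs h1 h2
  have hs1 : (1 : ℝ) ≤ s := by exact_mod_cast hs
  have hC : C ≤ |C| := le_abs_self C
  have hC0 : 0 ≤ |C| := abs_nonneg C
  have hx0 : (0 : ℝ) ≤ x := Nat.cast_nonneg x
  have hh0 : (0 : ℝ) ≤ h := Nat.cast_nonneg h
  set l : ℝ := (Nat.log 2 n : ℝ) + 1 with hl
  have hl1 : 1 ≤ l := by
    rw [hl]
    have : (0 : ℝ) ≤ (Nat.log 2 n : ℝ) := Nat.cast_nonneg _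
    linarith
  have hn1 : (1 : ℝ) ≤ (n : ℝ) + 1 := by
    have : (0 : ℝ) ≤ (n : ℝ) := Nat.cast_nonneg _
    linarith
  have hX0 : 0 ≤ ((n : ℝ) + 1) ^ ((3 : ℝ) / 2) := by positivity
  have hY0 : 0 ≤ ((n : ℝ) + 1) ^ ((1 : ℝ) / 2) := by positivity
  have e1 : ((h + 3 : ℕ) : ℝ) + l ≤ 4 * ((h : ℝ) + l) := by
    push_cast
    linarith
  have e2 : ((4 * s + 14 : ℕ) : ℝ) ≤ 18 * s := by
    push_cast
    linarith
  have e3 : 0 ≤ ((h + 3 : ℕ) : ℝ) + l := by positivity
  have c1 : ((2 * x : ℕ) : ℝ) * ((4 * s + 14 : ℕ) : ℝ) * (((h + 3 : ℕ) : ℝ) + l) ^ 2 ≤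
      576 * |C| * ((n : ℝ) + 1) ^ ((3 : ℝ) / 2) := by
    have e4 : (((h + 3 : ℕ) : ℝ) + l) ^ 2 ≤ (4 * ((h : ℝ) + l)) ^ 2 :=
      pow_le_pow_left₀ e3 e1 2
    calc ((2 * x : ℕ) : ℝ) * ((4 * s + 14 : ℕ) : ℝ) * (((h + 3 : ℕ) : ℝ) + l) ^ 2
        ≤ ((2 * x : ℕ) : ℝ) * (18 * s) * (4 * ((h : ℝ) + l)) ^ 2 := by
          refine mul_le_mul (mul_le_mul_of_nonneg_left e2 (Nat.cast_nonneg _)) e4
            (by positivity) (by positivity)
      _ = 576 * ((x : ℝ) * s * ((h : ℝ) + l) ^ 2) := by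
          push_cast
          ring
      _ ≤ 576 * (|C| * ((n : ℝ) + 1) ^ ((3 : ℝ) / 2)) := by
          refine mul_le_mul_of_nonneg_left ?_ (by norm_num)
          exact h1.trans (mul_le_mul_of_nonneg_right hC hX0)
      _ = _ := by ring
  have c2 : ((4 * s + 14 : ℕ) : ℝ) * (((h + 3 : ℕ) : ℝ) + 1) * (((h + 3 : ℕ) : ℝ) + l) ≤
      576 * |C| * ((n : ℝ) + 1) ^ ((1 : ℝ) / 2) := by
    calc ((4 * s + 14 : ℕ) : ℝ) * (((h + 3 : ℕ) : ℝ) + 1) * (((h + 3 : ℕ) : ℝ) + l)
        ≤ (18 * s) * (4 * ((h : ℝ) + 1)) * (4 * ((h : ℝ) + l)) := by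
          refine mul_le_mul (mul_le_mul e2 ?_ (by positivity) (by positivity)) e1 e3
            (by positivity)
          push_cast
          linarith
      _ = 288 * ((s : ℝ) * ((h : ℝ) + 1) * ((h : ℝ) + l)) := by ring
      _ ≤ 288 * (|C| * ((n : ℝ) + 1) ^ ((1 : ℝ) / 2)) := by
          refine mul_le_mul_of_nonneg_left ?_ (by norm_num)
          exact h2.trans (mul_le_mul_of_nonneg_right hC hY0)
      _ ≤ 576 * |C| * ((n : ℝ) + 1) ^ ((1 : ℝ) / 2) := by nlinarith [mul_nonneg hC0 hY0]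
  have c3 : ((0 : ℕ) : ℝ) * (((h + 3 : ℕ) : ℝ) + l) ^ 2 ≤ 576 * |C| * ((n : ℝ) + 1) := by
    rw [Nat.cast_zero, zero_mul]
    positivity
  obtain ⟨r1, r2, _, _, r5⟩ := hn (2 * x) (4 * s + 14) 0 (h + 3) (by omega) c1 c2 c3
  exact ⟨r1, r2, r5⟩

/-- Every machine has a code, with the bounds of the theorem. -/
theorem exists_accQ' (P : Sim) (A : PDM) (C : ℝ) : ∃ e n₀ : ℕ,
    ∀ w y : List Bool, n₀ ≤ w.length →
    (∀ T < NQ (num w), accQ P e (num w) (num y) T ≠ 0 → ∃ t, A.AcceptsAt w y t) ∧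
    (A.Within C w y → ∃ T < NQ (num w), accQ P e (num w) (num y) T ≠ 0) := by
  obtain ⟨e, n₀, he⟩ := exists_accQ P A
  obtain ⟨n₁, hn₁⟩ := eventually_atTop.1 (ev_apc C)
  refine ⟨e, max n₀ n₁, fun w y hw => ?_⟩
  obtain ⟨h1, h2⟩ := he w y ((le_max_left _ _).trans hw)
  refine ⟨h1, ?_⟩
  rintro ⟨t, s, x, h, hx, hh, hb1, hb2, hfit, hacc⟩
  obtain ⟨q1, q2, q3⟩ := hn₁ w.length ((le_max_right _ _).trans hw) x s h
    (one_le_of_accepts hfit hacc) hb1 hb2
  exact h2 t s x h q1 q2 q3 hx hh hfit hacc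

/-- **Average-case hardness for auxiliary pushdown machines with few calls.** -/
theorem apc_main (P : Sim) (c : ℕ) : ∃ (L : Set (List Bool)) (s : ℕ → List Bool), DLINSPACE L ∧
    (∀ n, (s n).length = n) ∧
    (∀ w, w ∈ L ↔ Odd ((List.zipWith and (s w.length) w).count true)) ∧
    ∀ (A : PDM) (C : ℝ), ∃ c' : ℝ, ∀ (n : ℕ) (α : List Bool), ∀ M, M = L ∨ M = Lᶜ →
        ({w : List Bool | w.length = n ∧
          (∀ v t, A.AcceptsAt w (α ++ v) t → w ∈ M) ∧
          (w ∈ M → ∃ v : List Bool, v.length ≤ c * n ∧ A.Within C w (α ++ v))}.ncard : ℝ) ≤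
        2 ^ n / 2 + c' * ((min α.length (n - α.length) : ℕ) + 1) *
          2 ^ (((n : ℝ) + α.length) / 2) := by
  obtain ⟨L, s, h1, h2, h3, h4⟩ := Pool.Agent.Helper28.Gen.avg_main (accQ P) NQ (LS_accQ P)
    LS_NQ c
  refine ⟨L, s, h1, h2, h3, fun A C => ?_⟩
  obtain ⟨e, n₀, he⟩ := exists_accQ' P A C
  obtain ⟨c', hc'⟩ := h4 (fun w y => ∃ t, A.AcceptsAt w y t) (fun w y => A.Within C w y)
    ⟨e, n₀, he⟩
  refine ⟨c', fun n α M hM => le_trans (Nat.cast_le.2 (Set.ncard_le_ncard ?_ ?_)) (hc' n α M hM)⟩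
  · rintro w ⟨hw, h5, h6⟩
    refine ⟨hw, ?_, h6⟩
    rintro v ⟨t, ht⟩
    exact h5 v t ht
  · exact (List.finite_length_eq Bool n).subset fun w hw => hw.1

/-- Languages accepted by auxiliary pushdown machines with few calls are in linear space. -/
theorem apc_lin (P : Sim) (c : ℕ) (A : PDM) (L : Set (List Bool)) (C : ℝ)
    (h1 : ∀ w y t, A.AcceptsAt w y t → w ∈ L)
    (h2 : ∀ w ∈ L, ∃ y : List Bool, y.length ≤ c * w.length ∧ A.Within C w y) :
    DLINSPACE L := by
  obtain ⟨e, n₀, he⟩ := exists_accQ' P A C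
  refine Pool.Agent.Helper28.Gen.lin_main (accQ P) NQ (LS_accQ P) LS_NQ c L
    (fun w y => ∃ t, A.AcceptsAt w y t) (fun w y => A.Within C w y) ⟨e, n₀, he⟩ ?_ h2
  rintro w y ⟨t, ht⟩
  exact h1 w y t ht

end Pool.Agent.Helper20.APC
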