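import Pool.Agent.Helper20.APC.Abs
import Pool.Agent.Helper20.APD.Num

set_option autoImplicit false

/-!
# The simulation with a table of calls, on numbers
-/

namespace Pool.Agent.Helper20.APC

open Pool.Agent.Helper65.LinSpace Pool.Agent.Helper78.Mpc Pool.Agent.Helper28.Ram
open Pool.Agent.Helper20.APD (NF NF.Ok NF.pd mkX kX phX lX sX pX kX_mkX phX_mkX lX_mkX sX_mkX
  pX_mkX Val encC encP ValP encC_lt encC_mod encC_div encC_ge encC_inj encP_lt encP_some_pos
  kX_zero kX_one accN_01 upd_same)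

/-! ### The machine -/

/-- The address. -/
def AA (F : NF) (B X : ℕ) : ℕ :=
  ifz (phX X) (ifz (eq01 (kX X) 2) 0 (F.ad (sX B X % B)))
    (ifz (eq01 (kX X) 2) (pX B X)
      (ifz (F.kd (sX B X % B) (sX B X / B) (lX X) - 2) 0
        (F.nq (sX B X % B) (sX B X / B) (lX X) + B * F.nz (sX B X % B) (sX B X / B) (lX X))))

/-- The new state in a call; `q`, `z`, `l` are the state, the symbol and the letter, `v` is the
entry of the new call. -/
def N0 (F : NF) (B q z l p v : ℕ) : ℕ :=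
  ifz (F.kd q z l) 0 (ifz (F.kd q z l - 1)
    (ifz (accN (F.nq q z l)) (mkX B 3 0 0 (F.nq q z l) p) 1)
    (ifz (F.kd q z l - 2) (mkX B 2 0 0 (F.nq q z l + B * F.nz q z l) p)
      (ifz (v % 4) (mkX B 2 0 0 (F.nq q z l + B * F.nz q z l) (F.nq q z l + B * F.nz q z l))
        (ifz (v % 4 - 1) 0 (mkX B 2 0 0 (v / 4 + B * z) p)))))

/-- The new state. -/
def NN (F : NF) (B X v : ℕ) : ℕ :=
  ifz (kX X / 2) X (ifz (phX X) (mkX B (kX X) 1 (v % 9) (sX B X) (pX B X))
    (ifz (kX X - 2)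
      (ifz (accN (sX B X % B))
        (N0 F B (sX B X % B) (sX B X / B) (lX X) (pX B X) v) 1)
      (ifz (pX B X) 0
        (ifz (v % 4) 0 (ifz (v % 4 - 1)
          (mkX B 2 0 0 (sX B X + B * (v / 4 % B)) (v / 4 / B)) 0)))))

/-- The written value in a call. -/
def W0 (F : NF) (B q z l p v : ℕ) : ℕ :=
  ifz (F.kd q z l - 2) v (ifz (v % 4) (1 + 4 * (z + B * p)) v)

/-- The written value. -/
def WW (F : NF) (B X v : ℕ) : ℕ :=
  ifz (kX X / 2) v (ifz (phX X) v
    (ifz (kX X - 2)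
      (ifz (accN (sX B X % B))
        (W0 F B (sX B X % B) (sX B X / B) (lX X) (pX B X) v) v)
      (ifz (pX B X) v
        (ifz (v % 4) v (ifz (v % 4 - 1) (2 + 4 * sX B X) v)))))

/-! ### Codes -/

def encE (B : ℕ) : Entry ℕ ℕ → ℕ
  | .none => 0
  | .link z p => 1 + 4 * (z + B * encP B p)
  | .done v => 2 + 4 * v

def ValE (B : ℕ) : Entry ℕ ℕ → Prop
  | .none => True
  | .link z p => (0 < z ∧ z < B) ∧ ValP B p
  | .done v => 0 < v ∧ v < B

def encS (B : ℕ) : SS ℕ ℕ → ℕ
  | .halt => 0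
  | .acc => 1
  | .call c p => mkX B 2 0 0 (encC B c) (encP B p)
  | .ret p v => mkX B 3 0 0 v (encP B p)

def ValS (B : ℕ) : SS ℕ ℕ → Prop
  | .halt => True
  | .acc => True
  | .call c p => Val B c ∧ ValP B p
  | .ret p v => (0 < v ∧ v < B) ∧ ValP B p

/-- The machine on numbers and the simulation agree. -/
structure Rel (B : ℕ) (lc : ℕ → ℕ) (x : ℕ × (ℕ → ℕ)) (s : SS ℕ ℕ × (ℕ × ℕ → Entry ℕ ℕ)) :
    Prop where
  h1 : x.1 = encS B s.1
  h2 : ValS B s.1
  h3 : ∀ c, Val B c → x.2 (encC B c) = encE B (s.2 c) ∧ ValE B (s.2 c)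
  h4 : ∀ i < B, x.2 i = lc i

/-! ### Two steps of the machine are one step of the simulation -/

/-- One step on numbers. -/
def st1 (F : NF) (B : ℕ) (x : ℕ × (ℕ → ℕ)) : ℕ × (ℕ → ℕ) :=
  (NN F B x.1 (x.2 (AA F B x.1)),
    Function.update x.2 (AA F B x.1) (WW F B x.1 (x.2 (AA F B x.1))))

theorem st1_halt (F : NF) (B : ℕ) (M : ℕ → ℕ) : st1 F B (0, M) = (0, M) := by
  unfold st1 NN WW
  simp only [kX_zero, Nat.zero_div, ifz_zero, Function.update_eq_self]

theorem st1_acc (F : NF) (B : ℕ) (M : ℕ → ℕ) : st1 F B (1, M) = (1, M) := by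
  unfold st1 NN WW
  simp only [kX_one, show (1 : ℕ) / 2 = 0 from rfl, ifz_zero, Function.update_eq_self]

theorem st1_ph0 (F : NF) (B : ℕ) {k s p : ℕ} (hk : k = 2 ∨ k = 3) (hs : s < B * B)
    (M : ℕ → ℕ) : st1 F B (mkX B k 0 0 s p, M) =
      (mkX B k 1 (M (ifz (eq01 k 2) 0 (F.ad (s % B))) % 9) s p, M) := by
  have hk4 : k < 4 := by omega
  unfold st1 NN WW AA
  simp only [kX_mkX hk4, phX_mkX hk4 (show (0 : ℕ) < 2 by norm_num), ifz_zero,
    sX_mkX hk4 (show (0 : ℕ) < 2 by norm_num) (show (0 : ℕ) < 9 by norm_num) hs,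
    pX_mkX hk4 (show (0 : ℕ) < 2 by norm_num) (show (0 : ℕ) < 9 by norm_num) hs]
  have h2 : k / 2 ≠ 0 := by omega
  rw [ifz_ne h2, ifz_ne h2, Function.update_eq_self]

/-- The address in the second phase of a call. -/
def aC (F : NF) (B q z l : ℕ) : ℕ := ifz (F.kd q z l - 2) 0 (F.nq q z l + B * F.nz q z l)

theorem st1_call (F : NF) (B : ℕ) {l s p : ℕ} (hl : l < 9) (hs : s < B * B) (M : ℕ → ℕ) :
    st1 F B (mkX B 2 1 l s p, M) =
      (ifz (accN (s % B)) (N0 F B (s % B) (s / B) l p (M (aC F B (s % B) (s / B) l))) 1,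
        Function.update M (aC F B (s % B) (s / B) l) (ifz (accN (s % B))
          (W0 F B (s % B) (s / B) l p (M (aC F B (s % B) (s / B) l)))
          (M (aC F B (s % B) (s / B) l)))) := by
  unfold st1 NN WW AA aC
  simp only [kX_mkX (show (2 : ℕ) < 4 by norm_num),
    phX_mkX (show (2 : ℕ) < 4 by norm_num) (show (1 : ℕ) < 2 by norm_num),
    lX_mkX (show (2 : ℕ) < 4 by norm_num) (show (1 : ℕ) < 2 by norm_num) hl,
    sX_mkX (show (2 : ℕ) < 4 by norm_num) (show (1 : ℕ) < 2 by norm_num) hl hs,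
    pX_mkX (show (2 : ℕ) < 4 by norm_num) (show (1 : ℕ) < 2 by norm_num) hl hs]
  have e1 : eq01 2 2 = 1 := rfl
  simp only [e1, ifz_ne one_ne_zero, show (2 : ℕ) / 2 = 1 from rfl, show (2 : ℕ) - 2 = 0 from rfl,
    ifz_zero]

theorem st1_ret (F : NF) (B : ℕ) {l s p : ℕ} (hl : l < 9) (hs : s < B * B) (M : ℕ → ℕ) :
    st1 F B (mkX B 3 1 l s p, M) =
      (ifz p 0 (ifz (M p % 4) 0 (ifz (M p % 4 - 1)
          (mkX B 2 0 0 (s + B * (M p / 4 % B)) (M p / 4 / B)) 0)),
        Function.update M p (ifz p (M p) (ifz (M p % 4) (M p) (ifz (M p % 4 - 1) (2 + 4 * s)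
          (M p))))) := by
  unfold st1 NN WW AA
  simp only [kX_mkX (show (3 : ℕ) < 4 by norm_num),
    phX_mkX (show (3 : ℕ) < 4 by norm_num) (show (1 : ℕ) < 2 by norm_num),
    lX_mkX (show (3 : ℕ) < 4 by norm_num) (show (1 : ℕ) < 2 by norm_num) hl,
    sX_mkX (show (3 : ℕ) < 4 by norm_num) (show (1 : ℕ) < 2 by norm_num) hl hs,
    pX_mkX (show (3 : ℕ) < 4 by norm_num) (show (1 : ℕ) < 2 by norm_num) hl hs]
  have e1 : eq01 3 2 = 0 := rfl
  simp only [e1, ifz_zero, ifz_ne one_ne_zero, show (3 : ℕ) / 2 = 1 from rfl,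
    show (3 : ℕ) - 2 = 1 from rfl]

theorem upd_rel {B : ℕ} {lc : ℕ → ℕ} {M : ℕ → ℕ} {T : ℕ × ℕ → Entry ℕ ℕ} {c : ℕ × ℕ}
    {e : Entry ℕ ℕ} (hc : Val B c) (he : ValE B e)
    (h3 : ∀ c, Val B c → M (encC B c) = encE B (T c) ∧ ValE B (T c)) (h4 : ∀ i < B, M i = lc i)
    {v : ℕ} (hv : v = encE B e) :
    (∀ c', Val B c' → Function.update M (encC B c) v (encC B c') =
      encE B (Function.update T c e c') ∧ ValE B (Function.update T c e c')) ∧
    ∀ i < B, Function.update M (encC B c) v i = lc i := by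
  constructor
  · intro c' hc'
    by_cases h : c' = c
    · subst h
      rw [Function.update_self, Function.update_self]
      exact ⟨hv, he⟩
    · rw [Function.update_of_ne h, Function.update_of_ne]
      · exact h3 c' hc'
      · exact fun hh => h (encC_inj hc' hc hh)
  · intro i hi
    rw [Function.update_of_ne]
    · exact h4 i hi
    · have := encC_ge hc
      omega

theorem rel_step {F : NF} {B : ℕ} (hF : F.Ok B) (hB : 0 < B) {lc : ℕ → ℕ} (hlc : ∀ i, lc i < 9)
    {x : ℕ × (ℕ → ℕ)} {s : SS ℕ ℕ × (ℕ × ℕ → Entry ℕ ℕ)} (h : Rel B lc x s) :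
    Rel B lc (st1 F B (st1 F B x)) (sstep (F.pd lc) s) := by
  obtain ⟨X, M⟩ := x
  obtain ⟨s, T⟩ := s
  obtain ⟨h1, h2, h3, h4⟩ := h
  simp only at h1 h2 h3 h4
  have hBB : 0 < B * B := Nat.mul_pos hB hB
  rcases s with _ | _ | ⟨c, p⟩ | ⟨p, v⟩
  · rw [h1]
    show Rel B lc (st1 F B (st1 F B (0, M))) (.halt, T)
    rw [st1_halt, st1_halt]
    exact ⟨rfl, trivial, h3, h4⟩
  · rw [h1]
    show Rel B lc (st1 F B (st1 F B (1, M))) (.acc, T)
    rw [st1_acc, st1_acc]
    exact ⟨rfl, trivial, h3, h4⟩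
  · obtain ⟨hc, hp⟩ := h2
    have hs := encC_lt hc
    have hpl := encP_lt hB hp
    have hl : M (F.ad c.1) = lc (F.ad c.1) := h4 _ (hF.had _)
    have hX : st1 F B (X, M) = (mkX B 2 1 (lc (F.ad c.1)) (encC B c) (encP B p), M) := by
      rw [h1]
      show st1 F B (mkX B 2 0 0 (encC B c) (encP B p), M) = _
      rw [st1_ph0 F B (Or.inl rfl) hs, encC_mod hc]
      have e1 : eq01 2 2 = 1 := rfl
      rw [e1, ifz_ne one_ne_zero, hl, Nat.mod_eq_of_lt (hlc _)]
    rw [hX, st1_call F B (hlc _) hs, encC_mod hc, encC_div hc]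
    rcases accN_01 c.1 with ha | ha
    · have hacc : ¬ (F.pd lc).acc c.1 := by
        show ¬ accN c.1 = 1
        omega
      simp only [ha, ifz_zero]
      unfold N0 W0 aC
      by_cases k0 : F.kd c.1 c.2 (lc (F.ad c.1)) = 0
      · have hmv : (F.pd lc).mv c.1 c.2 = .fail := if_pos k0
        have e : sstep (F.pd lc) (.call c p, T) = (.halt, T) := by
          simp only [sstep, hacc, if_false, hmv]
        rw [e, k0, ifz_zero]
        simp only [Nat.zero_sub, ifz_zero, Function.update_eq_self]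
        exact ⟨rfl, trivial, h3, h4⟩
      rw [ifz_ne k0]
      obtain ⟨hq0, hqB⟩ := hF.hnq c.1 c.2 (lc (F.ad c.1)) k0
      by_cases k1 : F.kd c.1 c.2 (lc (F.ad c.1)) = 1
      · have hmv : (F.pd lc).mv c.1 c.2 = .pop (F.nq c.1 c.2 (lc (F.ad c.1))) := by
          show (if _ then _ else _) = _
          rw [if_neg k0, if_pos k1]
        rw [k1]
        simp only [Nat.sub_self, show (1 : ℕ) - 2 = 0 from rfl, ifz_zero, Function.update_eq_self]
        rcases accN_01 (F.nq c.1 c.2 (lc (F.ad c.1))) with hv | hv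
        · have hacc' : ¬ (F.pd lc).acc (F.nq c.1 c.2 (lc (F.ad c.1))) := by
            show ¬ accN _ = 1
            omega
          have e : sstep (F.pd lc) (.call c p, T) =
              (.ret p (F.nq c.1 c.2 (lc (F.ad c.1))), T) := by
            simp only [sstep, hacc, if_false, hmv, hacc']
          rw [e, hv, ifz_zero]
          exact ⟨rfl, ⟨⟨hq0, hqB⟩, hp⟩, h3, h4⟩
        · have hacc' : (F.pd lc).acc (F.nq c.1 c.2 (lc (F.ad c.1))) := hv
          have e : sstep (F.pd lc) (.call c p, T) = (.acc, T) := by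
            simp only [sstep, hacc, if_false, hmv, hacc', if_true]
          rw [e, hv, ifz_ne one_ne_zero]
          exact ⟨rfl, trivial, h3, h4⟩
      have k1' : F.kd c.1 c.2 (lc (F.ad c.1)) - 1 ≠ 0 := by omega
      rw [ifz_ne k1']
      obtain ⟨hz0, hzB⟩ := hF.hnz c.1 c.2 (lc (F.ad c.1)) (by omega)
      have hc2 : Val B (F.nq c.1 c.2 (lc (F.ad c.1)), F.nz c.1 c.2 (lc (F.ad c.1))) :=
        ⟨⟨hq0, hqB⟩, hz0, hzB⟩
      by_cases k2 : F.kd c.1 c.2 (lc (F.ad c.1)) = 2
      · have hmv : (F.pd lc).mv c.1 c.2 = .stay (F.nq c.1 c.2 (lc (F.ad c.1)))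
            (F.nz c.1 c.2 (lc (F.ad c.1))) := by
          show (if _ then _ else _) = _
          rw [if_neg k0, if_neg k1, if_pos k2]
        have e : sstep (F.pd lc) (.call c p, T) = (.call (F.nq c.1 c.2 (lc (F.ad c.1)),
            F.nz c.1 c.2 (lc (F.ad c.1))) p, T) := by
          simp only [sstep, hacc, if_false, hmv]
        rw [e, k2]
        simp only [Nat.sub_self, ifz_zero, Function.update_eq_self]
        exact ⟨rfl, ⟨hc2, hp⟩, h3, h4⟩
      have k2' : F.kd c.1 c.2 (lc (F.ad c.1)) - 2 ≠ 0 := by omega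
      have hmv : (F.pd lc).mv c.1 c.2 = .push (F.nq c.1 c.2 (lc (F.ad c.1)))
          (F.nz c.1 c.2 (lc (F.ad c.1))) := by
        show (if _ then _ else _) = _
        rw [if_neg k0, if_neg k1, if_neg k2]
      set q' := F.nq c.1 c.2 (lc (F.ad c.1)) with hq'
      set z' := F.nz c.1 c.2 (lc (F.ad c.1)) with hz'
      have hcc : q' + B * z' = encC B (q', z') := rfl
      have hM := h3 (q', z') hc2
      simp only [ifz_ne k2', hcc]
      rw [hM.1]
      rcases hT : T (q', z') with _ | ⟨z1, p1⟩ | v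
      · have e : sstep (F.pd lc) (.call c p, T) = (.call (q', z') (some (q', z')),
            Function.update T (q', z') (.link c.2 p)) := by
          simp only [sstep, hacc, if_false, hmv, hT]
        have e0 : encE B Entry.none = 0 := rfl
        simp only [e0, Nat.zero_mod, ifz_zero]
        rw [e]
        obtain ⟨r3, r4⟩ := upd_rel hc2 (e := .link c.2 p) ⟨hc.2, hp⟩ h3 h4
          (v := 1 + 4 * (c.2 + B * encP B p)) rfl
        exact ⟨rfl, ⟨hc2, hc2⟩, r3, r4⟩
      · have e : sstep (F.pd lc) (.call c p, T) = (.halt, T) := by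
          simp only [sstep, hacc, if_false, hmv, hT]
        have m4 : encE B (.link z1 p1) % 4 = 1 := by
          show (1 + 4 * (z1 + B * encP B p1)) % 4 = 1
          omega
        rw [e, m4, ifz_ne one_ne_zero, ifz_ne one_ne_zero, ← hT, ← hM.1,
          Function.update_eq_self]
        exact ⟨rfl, trivial, h3, h4⟩
      · have e : sstep (F.pd lc) (.call c p, T) = (.call (v, c.2) p, T) := by
          simp only [sstep, hacc, if_false, hmv, hT]
        have m4 : encE B (.done v) % 4 = 2 := by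
          show (2 + 4 * v) % 4 = 2
          omega
        have d4 : encE B (.done v) / 4 = v := by
          show (2 + 4 * v) / 4 = v
          omega
        have hvE := hM.2
        rw [hT] at hvE
        rw [e, m4, d4, ifz_ne two_ne_zero, ifz_ne two_ne_zero, ← hT, ← hM.1,
          Function.update_eq_self, ifz_ne (show 2 - 1 ≠ 0 by norm_num)]
        exact ⟨rfl, ⟨⟨hvE, hc.2⟩, hp⟩, h3, h4⟩
    · have hacc : (F.pd lc).acc c.1 := ha
      have e : sstep (F.pd lc) (.call c p, T) = (.acc, T) := by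
        simp only [sstep, hacc, if_true]
      rw [e, ha, ifz_ne one_ne_zero, ifz_ne one_ne_zero, Function.update_eq_self]
      exact ⟨rfl, trivial, h3, h4⟩
  · obtain ⟨hv, hp⟩ := h2
    have hvB : v < B * B := lt_of_lt_of_le hv.2 (Nat.le_mul_of_pos_left _ hB)
    obtain ⟨l, hl, hX⟩ : ∃ l < 9, st1 F B (X, M) = (mkX B 3 1 l v (encP B p), M) := by
      refine ⟨M 0 % 9, Nat.mod_lt _ (by norm_num), ?_⟩
      rw [h1]
      show st1 F B (mkX B 3 0 0 v (encP B p), M) = _
      rw [st1_ph0 F B (Or.inr rfl) hvB]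
      have e1 : eq01 3 2 = 0 := rfl
      rw [e1, ifz_zero]
    rw [hX, st1_ret F B hl hvB]
    rcases p with _ | c
    · show Rel B lc (ifz 0 _ _, Function.update M 0 (ifz 0 (M 0) _)) (.halt, T)
      rw [ifz_zero, ifz_zero, Function.update_eq_self]
      exact ⟨rfl, trivial, h3, h4⟩
    · have hc : Val B c := hp
      have hne : encP B (some c) ≠ 0 := encP_some_pos hc
      rw [ifz_ne hne, ifz_ne hne]
      have hcc : encP B (some c) = encC B c := rfl
      rw [hcc]
      have hM := h3 c hc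
      rw [hM.1]
      rcases hT : T c with _ | ⟨z1, p1⟩ | w
      · have e : sstep (F.pd lc) (.ret (some c) v, T) = (.halt, T) := by
          simp only [sstep, hT]
        have e0 : encE B Entry.none = 0 := rfl
        rw [e]
        simp only [e0, Nat.zero_mod, ifz_zero]
        rw [upd_same (by rw [hM.1, hT]; rfl)]
        exact ⟨rfl, trivial, h3, h4⟩
      · have e : sstep (F.pd lc) (.ret (some c) v, T) =
            (.call (v, z1) p1, Function.update T c (.done v)) := by
          simp only [sstep, hT]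
        have hpE := hM.2
        rw [hT] at hpE
        obtain ⟨hz1, hp1⟩ := hpE
        have m4 : encE B (.link z1 p1) % 4 = 1 := by
          show (1 + 4 * (z1 + B * encP B p1)) % 4 = 1
          omega
        have d4 : encE B (.link z1 p1) / 4 = z1 + B * encP B p1 := by
          show (1 + 4 * (z1 + B * encP B p1)) / 4 = _
          omega
        have d5 : (z1 + B * encP B p1) % B = z1 := by
          rw [Nat.add_mul_mod_self_left, Nat.mod_eq_of_lt hz1.2]
        have d6 : (z1 + B * encP B p1) / B = encP B p1 := by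
          rw [Nat.add_mul_div_left _ _ hB, Nat.div_eq_of_lt hz1.2, zero_add]
        rw [e, m4, d4, d5, d6, ifz_ne one_ne_zero, ifz_ne one_ne_zero]
        simp only [Nat.sub_self, ifz_zero]
        obtain ⟨r3, r4⟩ := upd_rel hc (e := .done v) hv h3 h4 (v := 2 + 4 * v) rfl
        exact ⟨rfl, ⟨⟨hv, hz1⟩, hp1⟩, r3, r4⟩
      · have e : sstep (F.pd lc) (.ret (some c) v, T) = (.halt, T) := by
          simp only [sstep, hT]
        have m4 : encE B (.done w) % 4 = 2 := by
          show (2 + 4 * w) % 4 = 2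
          omega
        rw [e, m4, ifz_ne two_ne_zero, ifz_ne two_ne_zero,
          ifz_ne (show 2 - 1 ≠ 0 by norm_num), ifz_ne (show 2 - 1 ≠ 0 by norm_num), ← hT,
          ← hM.1, Function.update_eq_self]
        exact ⟨rfl, trivial, h3, h4⟩

end Pool.Agent.Helper20.APC
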